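import Pool.Agent.Helper88.NZ.TR

set_option autoImplicit false

/-!
MP_120218_co, project TR: the statement about translates (mixed form) from the structure theorem
for `k` sets.
-/

open Finset

namespace Pool.Agent.Helper88.NZ

open Pool.Agent.Helper26.TR

theorem mix_core {A J : Finset ℤ} (f : ℤ → ℤ) (hA : A.Nonempty) {κ : ℝ} (hκ0 : 0 < κ)
    (F : Finset ℕ) (hF : ∀ q ∈ F, q.Prime) (lam : ℤ → ℕ → ℕ)
    (hlam : ∀ y ∈ J, ∀ q ∈ F, ∀ l ≤ lam y q,
      κ * A.card ≤ ((A.filter (fun a => (q : ℤ) ^ l ∣ a + y)).card : ℝ))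
    {C : ℝ} (hC0 : 0 ≤ C)
    (hNZ : ∀ y ∈ J, ∀ mu : ℕ → ℕ, (∀ q ∈ F, mu q ≠ 0 → ∃ b : ℤ, b ≠ 0 ∧ κ * A.card ≤
      ((A.filter (fun a => (q : ℤ) ^ (padicValInt q b + mu q) ∣ (a + f y) - b)).card : ℝ)) →
      ∑ q ∈ F, (mu q : ℝ) * Real.log q ≤ C * ∑ q ∈ F, (lam y q : ℝ) * Real.log q)
    {S : ℝ} (hS : ∀ x ∈ J ∪ J.image f, ∀ y ∈ J ∪ J.image f, x ≠ y →
      Real.log (x - y).natAbs ≤ S) (hS0 : 0 ≤ S)
    (hW : ∀ y ∈ J, 2 * ((2 * (J.card : ℝ)) ^ 2 * S) ≤ ∑ q ∈ F, (lam y q : ℝ) * Real.log q)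
    (hW0 : ∀ y ∈ J, 0 < ∑ q ∈ F, (lam y q : ℝ) * Real.log q) :
    (J.card : ℝ) ≤ 1 + 2 * C / κ := by
  classical
  rcases J.eq_empty_or_nonempty with hJ | hJ
  · rw [hJ, card_empty, Nat.cast_zero]
    positivity
  obtain ⟨y₀, hy₀, hmin⟩ := exists_min_image J (fun x => ∑ q ∈ F, (lam x q : ℝ) * Real.log q) hJ
  set W : ℤ → ℝ := fun x => ∑ q ∈ F, (lam x q : ℝ) * Real.log q with hWdef
  set P : Finset ℤ := J ∪ J.image f with hP
  have hJP : J ⊆ P := subset_union_left
  set x : ℤ := f y₀ with hx0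
  have hx : x ∈ P := mem_union_right _ (mem_image_of_mem f hy₀)
  have hEJ : J.erase x ⊆ J := erase_subset _ _
  set mu : ℕ → ℕ := fun q => (J.erase x).sup (fun y => lam y q - sep P q) with hmu
  have hq0 : ∀ q : ℕ, 0 ≤ Real.log q := fun q => Real.log_natCast_nonneg q
  have hmuW : ∑ q ∈ F, (mu q : ℝ) * Real.log q ≤ C * W y₀ := by
    apply hNZ y₀ hy₀ mu
    intro q hq hne
    have hEne : (J.erase x).Nonempty := by
      rw [nonempty_iff_ne_empty]
      intro h0
      apply hne
      rw [hmu]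
      simp only
      rw [h0, sup_empty]
      rfl
    obtain ⟨y, hy, hye⟩ := exists_mem_eq_sup (J.erase x) hEne (fun y => lam y q - sep P q)
    have hyJ := hEJ hy
    have hyx := ne_of_mem_erase hy
    have hmuq : mu q = lam y q - sep P q := hye
    have hlt : sep P q < lam y q := by omega
    have hle : padicValInt q (x - y) + mu q ≤ lam y q := by
      have := le_sep (q := q) hx (hJP hyJ) (Ne.symm hyx)
      omega
    refine ⟨x - y, sub_ne_zero.2 (Ne.symm hyx), (hlam y hyJ q hq (lam y q) le_rfl).trans ?_⟩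
    apply Nat.cast_le.2
    apply card_le_card
    intro a ha
    rw [mem_filter] at ha ⊢
    refine ⟨ha.1, (pow_dvd_pow _ hle).trans ?_⟩
    rw [show a + x - (x - y) = a + y by ring]
    exact ha.2
  have hone : ∀ q ∈ F, κ * ∑ y ∈ J.erase x, ((lam y q - sep P q : ℕ) : ℝ) ≤ mu q := by
    intro q hq
    have h1 : ∀ y ∈ J.erase x, ((lam y q - sep P q : ℕ) : ℝ) =
        ∑ l ∈ Ioc (sep P q) (sep P q + mu q), if l ≤ lam y q then (1 : ℝ) else 0 := by
      intro y hy
      rw [← sum_filter, sum_const, nsmul_one]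
      congr 1
      have h2 : lam y q - sep P q ≤ mu q :=
        le_sup (f := fun y => lam y q - sep P q) hy
      have h3 : (Ioc (sep P q) (sep P q + mu q)).filter (fun l => l ≤ lam y q) =
          Ioc (sep P q) (lam y q) := by
        ext l
        simp only [mem_filter, mem_Ioc]
        omega
      rw [h3, Nat.card_Ioc]
    rw [sum_congr rfl h1, sum_comm, mul_sum]
    have h4 : ∀ l ∈ Ioc (sep P q) (sep P q + mu q),
        κ * ∑ y ∈ J.erase x, (if l ≤ lam y q then (1 : ℝ) else 0) ≤ 1 := by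
      intro l hl
      rw [← sum_filter, sum_const, nsmul_one]
      apply card_pop_le hA (hF q hq) (mem_Ioc.1 hl).1
      · exact (filter_subset _ _).trans (hEJ.trans hJP)
      · intro y hy
        rw [mem_filter] at hy
        exact hlam y (hEJ hy.1) q hq l hy.2
    refine (sum_le_sum h4).trans ?_
    rw [sum_const, Nat.card_Ioc, nsmul_one]
    apply le_of_eq
    congr 1
    omega
  have hall : κ * ∑ y ∈ J.erase x, ∑ q ∈ F, ((lam y q - sep P q : ℕ) : ℝ) * Real.log q ≤
      C * W y₀ := by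
    rw [sum_comm, mul_sum]
    refine le_trans (sum_le_sum fun q hq => ?_) hmuW
    rw [← sum_mul, ← mul_assoc]
    exact mul_le_mul_of_nonneg_right (hone q hq) (hq0 q)
  have hPc : (P.card : ℝ) ≤ 2 * J.card := by
    have h1 : P.card ≤ J.card + J.card :=
      (card_union_le _ _).trans (Nat.add_le_add_left card_image_le _)
    have h2 : (P.card : ℝ) ≤ J.card + J.card := by exact_mod_cast h1
    linarith
  have hsep : ∑ q ∈ F, (sep P q : ℝ) * Real.log q ≤ (2 * (J.card : ℝ)) ^ 2 * S := by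
    refine (sum_sep_le P F hF hS hS0).trans ?_
    apply mul_le_mul_of_nonneg_right _ hS0
    exact pow_le_pow_left₀ (Nat.cast_nonneg _) hPc 2
  have hlow : ∀ y ∈ J.erase x, W y₀ / 2 ≤
      ∑ q ∈ F, ((lam y q - sep P q : ℕ) : ℝ) * Real.log q := by
    intro y hy
    have hyJ := hEJ hy
    have h1 : W y - ∑ q ∈ F, (sep P q : ℝ) * Real.log q ≤
        ∑ q ∈ F, ((lam y q - sep P q : ℕ) : ℝ) * Real.log q := by
      rw [hWdef]
      simp only
      rw [← sum_sub_distrib]
      apply sum_le_sum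
      intro q _
      rw [← sub_mul]
      apply mul_le_mul_of_nonneg_right _ (hq0 q)
      have h2 : lam y q ≤ (lam y q - sep P q) + sep P q := by omega
      have h3 : (lam y q : ℝ) ≤ ((lam y q - sep P q : ℕ) : ℝ) + sep P q := by exact_mod_cast h2
      linarith
    have h4 : W y₀ ≤ W y := hmin y hyJ
    have h5 : 2 * ((2 * (J.card : ℝ)) ^ 2 * S) ≤ W y₀ := hW y₀ hy₀
    linarith
  have hWx : 0 < W y₀ := hW0 y₀ hy₀
  have h6 : κ * (((J.card : ℝ) - 1) * (W y₀ / 2)) ≤ C * W y₀ := by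
    refine le_trans ?_ hall
    apply mul_le_mul_of_nonneg_left _ hκ0.le
    have h7 := sum_le_sum hlow
    rw [sum_const, nsmul_eq_mul] at h7
    refine le_trans ?_ h7
    apply mul_le_mul_of_nonneg_right _ (by positivity)
    have h8 : J.card - 1 ≤ (J.erase x).card := pred_card_le_card_erase
    have h9 : J.card ≤ (J.erase x).card + 1 := by omega
    have h10 : (J.card : ℝ) ≤ (J.erase x).card + 1 := by exact_mod_cast h9
    linarith
  have h7 : (κ * ((J.card : ℝ) - 1)) * (W y₀ / 2) ≤ (2 * C) * (W y₀ / 2) := by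
    refine (le_of_eq ?_).trans (h6.trans (le_of_eq ?_)) <;> ring
  have h8 := le_of_mul_le_mul_right h7 (by positivity)
  have h9 : (J.card : ℝ) - 1 ≤ 2 * C / κ := by
    rw [le_div_iff₀ hκ0]
    linarith
  linarith

/-- the translate of a set, without zero -/
def sz (A : Finset ℤ) (x : ℤ) : Finset ℤ := (sh A x).erase 0

theorem sz_zero (A : Finset ℤ) (x : ℤ) : (0 : ℤ) ∉ sz A x := notMem_erase _ _

theorem card_sz_le (A : Finset ℤ) (x : ℤ) : (sz A x).card ≤ A.card := by
  rw [← card_sh A x]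
  exact card_le_card (erase_subset _ _)

theorem le_card_sz (A : Finset ℤ) (x : ℤ) : A.card ≤ (sz A x).card + 1 := by
  have : (sh A x).card - 1 ≤ (sz A x).card := pred_card_le_card_erase
  rw [card_sh] at this
  omega

/-- a popular class of zero in the translate without zero is popular in the full set -/
theorem pop_full {A : Finset ℤ} {κ : ℝ} (hκ1 : κ ≤ 1) (y : ℤ) (q l : ℕ)
    (hl : l ≤ lev κ (sz A y) q) :
    κ * A.card ≤ ((A.filter (fun a => (q : ℤ) ^ l ∣ a + y)).card : ℝ) := by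
  classical
  have h1 := dvd_lev hκ1 (sz A y) q hl
  have h2 : ((sh A y).filter (fun a => (q : ℤ) ^ l ∣ a)).card =
      (A.filter (fun a => (q : ℤ) ^ l ∣ a + y)).card := card_filter_sh A y _
  by_cases h0 : (0 : ℤ) ∈ sh A y
  · have h3 : ((sz A y).filter (fun a => (q : ℤ) ^ l ∣ a)).card + 1 =
        ((sh A y).filter (fun a => (q : ℤ) ^ l ∣ a)).card := by
      unfold sz
      rw [filter_erase]
      exact card_erase_add_one (mem_filter.2 ⟨h0, dvd_zero _⟩)
    have h4 : (sz A y).card + 1 = A.card := by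
      rw [← card_sh A y]
      exact card_erase_add_one h0
    rw [← h2, ← h3, ← h4]
    push_cast
    linarith
  · have h3 : sz A y = sh A y := erase_eq_of_notMem h0
    rw [h3, card_sh, h2] at h1
    exact h1

/-- popular leading digits in the translate without zero -/
theorem pop_sz {A : Finset ℤ} {κ : ℝ} (hκ0 : 0 ≤ κ) (x b : ℤ) (q e : ℕ) (hb : ¬ (q : ℤ) ^ e ∣ b)
    (h : κ * A.card ≤ ((A.filter (fun a => (q : ℤ) ^ e ∣ (a + x) - b)).card : ℝ)) :
    κ * (sz A x).card ≤ (((sz A x).filter (fun a => (q : ℤ) ^ e ∣ a - b)).card : ℝ) := by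
  classical
  have h1 : ((sh A x).filter (fun a => (q : ℤ) ^ e ∣ a - b)).card =
      (A.filter (fun a => (q : ℤ) ^ e ∣ (a + x) - b)).card := card_filter_sh A x _
  have h2 : (sz A x).filter (fun a => (q : ℤ) ^ e ∣ a - b) =
      (sh A x).filter (fun a => (q : ℤ) ^ e ∣ a - b) := by
    unfold sz
    rw [filter_erase]
    apply erase_eq_of_notMem
    intro h0
    apply hb
    have h3 := (mem_filter.1 h0).2
    rw [zero_sub] at h3
    exact (dvd_neg).1 h3
  rw [h2, h1]
  refine le_trans ?_ h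
  apply mul_le_mul_of_nonneg_left _ hκ0
  exact_mod_cast card_sz_le A x

/-- the combinatorial core for pairs of translates, in terms of `W0` and `Pop` -/
theorem mix_lev {A J : Finset ℤ} (f : ℤ → ℤ) (hA : A.Nonempty) {κ : ℝ}
    (hκ0 : 0 < κ) (hκ1 : κ ≤ 1) {C : ℝ} (hC0 : 0 ≤ C)
    (hNZ : ∀ y ∈ J, ∀ (T : Finset ℕ) (e : ℕ → ℕ) (β : ℕ → ℤ), Pop κ (sz A (f y)) T e β →
      W1 T e β ≤ C * W0 κ (sz A y))
    {S : ℝ} (hS : ∀ x ∈ J ∪ J.image f, ∀ y ∈ J ∪ J.image f, x ≠ y →
      Real.log (x - y).natAbs ≤ S) (hS0 : 0 ≤ S)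
    (hW : ∀ y ∈ J, 2 * ((2 * (J.card : ℝ)) ^ 2 * S) ≤ W0 κ (sz A y))
    (hW1 : ∀ y ∈ J, 0 < W0 κ (sz A y)) :
    (J.card : ℝ) ≤ 1 + 2 * C / κ := by
  classical
  set F : Finset ℕ := J.biUnion (fun x => prs (sz A x)) with hFdef
  have hF : ∀ p ∈ F, p.Prime := by
    intro p hp
    rw [hFdef, mem_biUnion] at hp
    obtain ⟨x, _, hx⟩ := hp
    unfold prs at hx
    rw [mem_biUnion] at hx
    obtain ⟨a, _, ha⟩ := hx
    exact Nat.prime_of_mem_primeFactors ha
  have hWF : ∀ x ∈ J, W0 κ (sz A x) = ∑ q ∈ F, (lev κ (sz A x) q : ℝ) * Real.log q := by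
    intro x hx
    exact W0_eq _ (sz_zero A x) F hF (subset_biUnion_of_mem (fun x => prs (sz A x)) hx)
  refine mix_core (A := A) (J := J) f hA hκ0 F hF (fun x q => lev κ (sz A x) q)
    (fun x _ q _ l hl => pop_full hκ1 x q l hl) hC0
    (fun x hx mu hmu => ?_)
    hS hS0 (fun x hx => by rw [← hWF x hx]; exact hW x hx)
    (fun x hx => by rw [← hWF x hx]; exact hW1 x hx)
  have hmu' : ∀ q : ℕ, ∃ b : ℤ, q ∈ F → mu q ≠ 0 → b ≠ 0 ∧ κ * A.card ≤
      ((A.filter (fun a => (q : ℤ) ^ (padicValInt q b + mu q) ∣ (a + f x) - b)).card : ℝ) := by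
    intro q
    by_cases hq : q ∈ F
    · by_cases hm : mu q = 0
      · exact ⟨0, fun _ h => absurd hm h⟩
      · obtain ⟨b, hb⟩ := hmu q hq hm
        exact ⟨b, fun _ _ => hb⟩
    · exact ⟨0, fun h => absurd h hq⟩
  choose b hb using hmu'
  have hndvd : ∀ p ∈ F.filter (fun q => mu q ≠ 0),
      ¬ ((p : ℤ) ^ (padicValInt p (b p) + mu p) ∣ b p) := by
    intro p hp hdvd
    obtain ⟨hpF, hpm⟩ := mem_filter.1 hp
    have := Fact.mk (hF p hpF)
    rcases (padicValInt_dvd_iff (p := p) _ _).1 hdvd with h | h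
    · exact (hb p hpF hpm).1 h
    · omega
  have hpop : Pop κ (sz A (f x)) (F.filter (fun q => mu q ≠ 0))
      (fun q => padicValInt q (b q) + mu q) b := by
    refine ⟨fun p hp => hF p (mem_filter.1 hp).1, hndvd, ?_⟩
    intro p hp
    obtain ⟨hpF, hpm⟩ := mem_filter.1 hp
    exact pop_sz hκ0.le (f x) (b p) p _ (hndvd p hp) (hb p hpF hpm).2
  have h1 := hNZ x hx _ _ _ hpop
  have h2 : W1 (F.filter (fun q => mu q ≠ 0)) (fun q => padicValInt q (b q) + mu q) b =
      ∑ q ∈ F, (mu q : ℝ) * Real.log q := by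
    unfold W1
    rw [sum_filter]
    apply sum_congr rfl
    intro q _
    by_cases hm : mu q = 0
    · simp [hm]
    · rw [if_pos hm, Nat.add_sub_cancel_left]
  rw [h2] at h1
  rw [← hWF x hx]
  exact h1

theorem mixSet_perm {k : ℕ} (A : Fin k → Finset ℤ) (σ : Equiv.Perm (Fin k)) :
    mixSet (fun i => A (σ i)) = mixSet A := by
  classical
  unfold mixSet
  ext z
  rw [mem_image, mem_image]
  constructor
  · rintro ⟨g, hg, rfl⟩
    rw [Fintype.mem_piFinset] at hg
    refine ⟨fun i => g (σ.symm i), ?_, ?_⟩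
    · rw [Fintype.mem_piFinset]
      intro i
      have := hg (σ.symm i)
      rwa [Equiv.apply_symm_apply] at this
    · exact Equiv.prod_comp σ.symm g
  · rintro ⟨g, hg, rfl⟩
    rw [Fintype.mem_piFinset] at hg
    refine ⟨fun i => g (σ i), ?_, ?_⟩
    · rw [Fintype.mem_piFinset]
      intro i
      exact hg (σ i)
    · exact Equiv.prod_comp σ g

theorem mixSet_mono {k : ℕ} {A B : Fin k → Finset ℤ} (h : ∀ i, A i ⊆ B i) :
    mixSet A ⊆ mixSet B := by
  classical
  unfold mixSet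
  exact image_subset_image (Fintype.piFinset_subset _ _ h)

theorem mixSet_nonempty {k : ℕ} {A : Fin k → Finset ℤ} (h : ∀ i, (A i).Nonempty) :
    (mixSet A).Nonempty := by
  classical
  choose a ha using h
  unfold mixSet
  exact ⟨_, mem_image_of_mem _ (Fintype.mem_piFinset.2 ha)⟩

/-- the relation between translates given by the structure theorem -/
def Rel (A : Finset ℤ) (κ C W : ℝ) (x y : ℤ) : Prop :=
  (∀ (T : Finset ℕ) (e : ℕ → ℕ) (β : ℕ → ℤ), Pop κ (sz A x) T e β →
    W1 T e β ≤ C * W0 κ (sz A y)) ∧ W ≤ W0 κ (sz A y)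

open Classical in
/-- the exceptional translates for one relation -/
noncomputable def Exc (A : Finset ℤ) (κ C W X : ℝ) : Finset ℤ :=
  (Icc (-(⌊X⌋)) (⌊X⌋)).filter (fun y => ∃ x : ℤ, |(x : ℝ)| ≤ X ∧ Rel A κ C W x y)

theorem mem_Exc {A : Finset ℤ} {κ C W X : ℝ} {x y : ℤ} (hx : |(x : ℝ)| ≤ X) (hy : |(y : ℝ)| ≤ X)
    (h : Rel A κ C W x y) : y ∈ Exc A κ C W X := by
  classical
  unfold Exc
  rw [mem_filter, mem_Icc]
  refine ⟨⟨?_, Int.le_floor.2 (abs_le.1 hy).2⟩, x, hx, h⟩
  have h1 : -y ≤ ⌊X⌋ := by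
    apply Int.le_floor.2
    push_cast
    linarith [(abs_le.1 hy).1]
  linarith

theorem card_Exc {A : Finset ℤ} (hA : A.Nonempty) {κ : ℝ} (hκ0 : 0 < κ) (hκ1 : κ ≤ 1) {C : ℝ}
    (hC0 : 0 ≤ C) {W X S : ℝ} (hX : Real.log (2 * X) ≤ S) (hS0 : 0 ≤ S) {m : ℕ}
    (hm : 1 + 2 * C / κ ≤ m) (hW0 : 0 < W) (hW : 2 * ((2 * ((m : ℝ) + 1)) ^ 2 * S) ≤ W) :
    (Exc A κ C W X).card ≤ m := by
  classical
  by_contra hlt
  push Not at hlt
  obtain ⟨J, hJ, hJc⟩ := exists_subset_card_eq (s := Exc A κ C W X) (n := m + 1) (by omega)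
  have hJ' : ∀ y ∈ J, |(y : ℝ)| ≤ X ∧ ∃ x : ℤ, |(x : ℝ)| ≤ X ∧ Rel A κ C W x y := by
    intro y hy
    have h1 := hJ hy
    unfold Exc at h1
    rw [mem_filter, mem_Icc] at h1
    refine ⟨?_, h1.2⟩
    rw [abs_le]
    have h2 : (y : ℝ) ≤ (⌊X⌋ : ℝ) := by exact_mod_cast h1.1.2
    have h3 : (-(⌊X⌋ : ℝ)) ≤ (y : ℝ) := by exact_mod_cast h1.1.1
    have h4 := Int.floor_le X
    constructor <;> linarith
  have hf : ∀ y : ℤ, ∃ x : ℤ, y ∈ J → |(x : ℝ)| ≤ X ∧ Rel A κ C W x y := by
    intro y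
    by_cases hy : y ∈ J
    · obtain ⟨x, hx⟩ := (hJ' y hy).2
      exact ⟨x, fun _ => hx⟩
    · exact ⟨0, fun h => absurd h hy⟩
  choose f hf using hf
  have hbd : ∀ x ∈ J ∪ J.image f, |(x : ℝ)| ≤ X := by
    intro x hx
    rcases mem_union.1 hx with h | h
    · exact (hJ' x h).1
    · obtain ⟨y, hy, rfl⟩ := mem_image.1 h
      exact (hf y hy).1
  have hJr : (J.card : ℝ) = m + 1 := by rw [hJc]; push_cast; ring
  have key := mix_lev (A := A) (J := J) f hA hκ0 hκ1 hC0
    (fun y hy => (hf y hy).2.1) (S := S)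
    (fun x hx y hy hxy => by
      have h1 : ((x - y).natAbs : ℝ) = |(x : ℝ) - y| := by
        rw [Nat.cast_natAbs]
        push_cast
        rfl
      have h2 : (0 : ℝ) < (x - y).natAbs := by
        exact_mod_cast Int.natAbs_pos.2 (sub_ne_zero.2 hxy)
      refine (Real.log_le_log h2 ?_).trans hX
      rw [h1]
      have h3 := abs_sub (x : ℝ) (y : ℝ)
      have h4 := hbd x hx
      have h5 := hbd y hy
      linarith) hS0
    (fun y hy => by
      rw [hJr]
      exact hW.trans (hf y hy).2.2)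
    (fun y hy => hW0.trans_le (hf y hy).2.2)
  rw [hJr] at key
  linarith

/-- **From the structure theorem for `k` sets to the theorem on translates, mixed form.** -/
theorem translatesMix (hNZ : NZMix) : TRMix := by
  classical
  intro k hk ε hε
  set ε' : ℝ := min ε 1 with hε'
  have hε'0 : 0 < ε' := lt_min hε one_pos
  have hε'1 : ε' ≤ 1 := min_le_right _ _
  have hk1 : (1 : ℝ) ≤ k := by exact_mod_cast hk
  have hk0 : (0 : ℝ) < k := by linarith
  obtain ⟨κ, C, c₁, hκ, hC, hc₁, hnz⟩ := hNZ k ε' hε'0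
  -- the number of exceptions
  have hml : ∀ l : Fin k, ∃ m : ℕ, 1 + 2 * (2 * C * k) / κ l ≤ m := fun l => exists_nat_ge _
  choose ml hml using hml
  set m : ℕ := ∑ l, ml l with hm
  have hmlm : ∀ l, (ml l : ℝ) ≤ m := by
    intro l
    have : ml l ≤ m := single_le_sum (f := ml) (fun _ _ => Nat.zero_le _) (mem_univ l)
    exact_mod_cast this
  set c₀ : ℝ := c₁ / (16 * k * ((m : ℝ) + 1) ^ 2) with hc₀
  have hc₀0 : 0 < c₀ := by positivity
  -- the threshold
  set L₀ : ℝ := max 16 (1 / c₁ + 1 / c₀) with hL₀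
  set c : ℝ := min (c₁ / 2 ^ k) (min c₀ (Real.exp (-(k * L₀)))) with hc
  have hc0 : 0 < c := by
    rw [hc]
    apply lt_min _ (lt_min _ _) <;> positivity
  have hcc₁ : c ≤ c₁ / 2 ^ k := min_le_left _ _
  have hcc₀ : c ≤ c₀ := (min_le_right _ _).trans (min_le_left _ _)
  have hce : c ≤ Real.exp (-(k * L₀)) := (min_le_right _ _).trans (min_le_right _ _)
  clear_value c
  refine ⟨m, c, hc0, ?_⟩
  intro A hA
  have hN1 : (1 : ℝ) ≤ A.card := by exact_mod_cast card_pos.2 hA
  have hNpos : (0 : ℝ) < A.card := by linarith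
  set N : ℝ := (A.card : ℝ) with hN
  -- small `N`
  by_cases hL0 : Real.log N ≤ L₀
  · refine ⟨∅, by simp, ?_⟩
    intro x _ _
    have h2 : (1 : ℝ) ≤ ((mixSet (fun i => A.image (fun a => a + x i))).card : ℝ) := by
      exact_mod_cast card_pos.2 (mixSet_nonempty (fun i => hA.image _))
    refine le_trans ?_ h2
    have hL0' : 0 ≤ Real.log N := Real.log_nonneg hN1
    calc c * N ^ ((k : ℝ) - ε) ≤ Real.exp (-(k * L₀)) * N ^ (k : ℝ) := by
          apply mul_le_mul hce _ (by positivity) (Real.exp_pos _).le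
          exact Real.rpow_le_rpow_of_exponent_le hN1 (by linarith)
      _ = Real.exp (k * (Real.log N - L₀)) := by
          rw [Real.rpow_def_of_pos hNpos, ← Real.exp_add]
          congr 1
          ring
      _ ≤ Real.exp 0 := by
          apply Real.exp_le_exp.2
          have : Real.log N - L₀ ≤ 0 := by linarith
          nlinarith
      _ = 1 := Real.exp_zero
  push Not at hL0
  have hL16 : 16 ≤ Real.log N := (le_max_left _ _).trans hL0.le
  have hL2 : 1 / c₁ + 1 / c₀ ≤ Real.log N := (le_max_right _ _).trans hL0.le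
  have hNexp : Real.exp 16 ≤ N := by rwa [← Real.le_log_iff_exp_le hNpos]
  obtain ⟨-, hLL1, -⟩ := half_log hNexp (M := N) (by linarith)
  have hi1 : 0 < 1 / c₁ := by positivity
  have hi0 : 0 < 1 / c₀ := by positivity
  set LL : ℝ := Real.log N * Real.log (Real.log N) with hLL
  have hLLL : Real.log N ≤ LL := by
    rw [hLL]
    nlinarith
  have hLLc₁ : 1 ≤ c₁ * LL := by
    have h1 : 1 / c₁ ≤ LL := by linarith
    rw [div_le_iff₀ hc₁] at h1
    linarith
  have hLLc₀ : 1 ≤ c₀ * LL := by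
    have h1 : 1 / c₀ ≤ LL := by linarith
    rw [div_le_iff₀ hc₀0] at h1
    linarith
  have hLL0 : 0 < LL := by linarith
  have hN16 : 2 ≤ N := by
    have := Real.add_one_le_exp (16 : ℝ)
    linarith
  set X : ℝ := N ^ (c * Real.log (Real.log N)) with hX
  have hXpos : 0 < X := Real.rpow_pos_of_pos hNpos _
  have hlogX : Real.log (2 * X) ≤ 2 * (c₀ * LL) := by
    rw [Real.log_mul (by norm_num) hXpos.ne', hX, Real.log_rpow hNpos]
    have h1 : c * Real.log (Real.log N) * Real.log N = c * LL := by rw [hLL]; ring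
    rw [h1]
    have h2 : c * LL ≤ c₀ * LL := mul_le_mul_of_nonneg_right hcc₀ hLL0.le
    have h3 := Real.log_two_lt_d9
    linarith
  -- the exceptional set
  refine ⟨univ.biUnion (fun l : Fin k => Exc A (κ l) (2 * C * k) (c₁ / k * LL) X), ?_, ?_⟩
  · refine card_biUnion_le.trans ?_
    rw [hm]
    apply sum_le_sum
    intro l _
    refine card_Exc hA (hκ l).1 (hκ l).2 (by positivity) hlogX (by positivity) (hml l)
      (by positivity) ?_
    calc 2 * ((2 * ((ml l : ℝ) + 1)) ^ 2 * (2 * (c₀ * LL)))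
        ≤ 2 * ((2 * ((m : ℝ) + 1)) ^ 2 * (2 * (c₀ * LL))) := by
          have := hmlm l
          gcongr
      _ = (16 * ((m : ℝ) + 1) ^ 2 * c₀) * LL := by ring
      _ = c₁ / k * LL := by
          congr 1
          rw [hc₀]
          field_simp
  · intro x hxX hxE
    set E : Finset ℤ := univ.biUnion
      (fun l : Fin k => Exc A (κ l) (2 * C * k) (c₁ / k * LL) X) with hE
    by_contra hcon
    push Not at hcon
    -- the position in `E` is moved to the end
    obtain ⟨k', hk'⟩ : ∃ k', k = k' + 1 := ⟨k - 1, by omega⟩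
    have hlast : k - 1 < k := by omega
    set last : Fin k := ⟨k - 1, hlast⟩ with hlastdef
    obtain ⟨i₀, hi₀⟩ : ∃ i₀ : Fin k, ∀ i, x i ∈ E → i = i₀ := by
      by_cases h : ∃ i, x i ∈ E
      · obtain ⟨i, hi⟩ := h
        refine ⟨i, fun j hj => ?_⟩
        exact card_le_one.1 hxE j (mem_filter.2 ⟨mem_univ _, hj⟩) i
          (mem_filter.2 ⟨mem_univ _, hi⟩)
      · exact ⟨last, fun i hi => absurd ⟨i, hi⟩ h⟩
    set σ : Equiv.Perm (Fin k) := Equiv.swap i₀ last with hσ
    have hσlast : σ last = i₀ := Equiv.swap_apply_right _ _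
    set B : Fin k → Finset ℤ := fun i => sz A (x (σ i)) with hB
    have hBc : ∀ i, N / 2 ≤ ((B i).card : ℝ) := by
      intro i
      have h1 : N ≤ ((B i).card : ℝ) + 1 := by
        rw [hN]
        exact_mod_cast le_card_sz A (x (σ i))
      linarith
    have hBne : ∀ i, (B i).Nonempty := by
      intro i
      rw [← card_pos]
      have h1 := hBc i
      have h2 : (0 : ℝ) < ((B i).card : ℝ) := by linarith
      exact_mod_cast h2
    have hsub : ((mixSet B).card : ℝ) ≤
        ((mixSet (fun i => A.image (fun a => a + x i))).card : ℝ) := by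
      apply Nat.cast_le.2
      apply card_le_card
      rw [← mixSet_perm (fun i => A.image (fun a => a + x i)) σ]
      apply mixSet_mono
      intro i
      exact erase_subset _ _
    have hprod : (N / 2) ^ k ≤ ∏ l, ((B l).card : ℝ) := by
      have h1 : (N / 2) ^ k = ∏ _l : Fin k, (N / 2) := by
        rw [prod_const, card_univ, Fintype.card_fin]
      rw [h1]
      exact prod_le_prod (fun _ _ => by positivity) fun l _ => hBc l
    have hlt : ((mixSet B).card : ℝ) < c₁ * ((A.card : ℕ) : ℝ) ^ (-ε') *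
        ∏ l, ((B l).card : ℝ) := by
      refine (hsub.trans_lt hcon).trans_le ?_
      calc c * N ^ ((k : ℝ) - ε) ≤ c₁ / 2 ^ k * N ^ ((k : ℝ) - ε') := by
            apply mul_le_mul hcc₁ _ (by positivity) (by positivity)
            apply Real.rpow_le_rpow_of_exponent_le hN1
            have : ε' ≤ ε := min_le_left _ _
            linarith
        _ = c₁ * N ^ (-ε') * (N / 2) ^ k := by
            rw [show (k : ℝ) - ε' = -ε' + k by ring, Real.rpow_add hNpos, Real.rpow_natCast,
              div_pow]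
            ring
        _ ≤ c₁ * N ^ (-ε') * ∏ l, ((B l).card : ℝ) := by
            apply mul_le_mul_of_nonneg_left hprod (by positivity)
    obtain ⟨l, hl0, hl1, hl2⟩ := hnz A.card B hBne (fun i => sz_zero A _)
      (fun i => card_sz_le A _) hlt
    have hWb : 0 < W0b (κ l) B l := by
      have : 0 < c₁ * LL := by positivity
      exact this.trans_le hl2
    have hWb1 : 1 ≤ W0b (κ l) B l := hLLc₁.trans hl2
    -- the largest of the weights
    obtain ⟨l', hl', hmax⟩ : ∃ l' : Fin k, l' < l ∧ W0b (κ l) B l ≤ k * W0 (κ l) (B l') := by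
      by_contra hno
      push Not at hno
      have h1 : W0b (κ l) B l ≤ ∑ l' ∈ univ.filter (fun l' : Fin k => l' < l),
          W0b (κ l) B l / k := by
        conv_lhs => unfold W0b
        apply sum_le_sum
        intro l' hl'
        rw [le_div_iff₀ hk0, mul_comm]
        exact (hno l' (mem_filter.1 hl').2).le
      rw [sum_const, nsmul_eq_mul] at h1
      have h2 : (univ.filter (fun l' : Fin k => l' < l)).card < k := by
        have h3 : univ.filter (fun l' : Fin k => l' < l) ⊂ univ := by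
          rw [filter_ssubset]
          exact ⟨l, mem_univ _, lt_irrefl _⟩
        have h4 := card_lt_card h3
        rwa [card_univ, Fintype.card_fin] at h4
      have h3 : ((univ.filter (fun l' : Fin k => l' < l)).card : ℝ) < k := by exact_mod_cast h2
      have h4 : ((univ.filter (fun l' : Fin k => l' < l)).card : ℝ) * (W0b (κ l) B l / k) <
          k * (W0b (κ l) B l / k) := mul_lt_mul_of_pos_right h3 (by positivity)
      have h5 : (k : ℝ) * (W0b (κ l) B l / k) = W0b (κ l) B l := by field_simp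
      linarith
    have hrel : Rel A (κ l) (2 * C * k) (c₁ / k * LL) (x (σ l)) (x (σ l')) := by
      constructor
      · intro T e β hP
        refine (hl1 T e β hP).trans ?_
        calc C * (W0b (κ l) B l + 1) ≤ C * (2 * W0b (κ l) B l) := by
              apply mul_le_mul_of_nonneg_left _ hC.le
              linarith
          _ ≤ C * (2 * (k * W0 (κ l) (B l'))) := by
              apply mul_le_mul_of_nonneg_left _ hC.le
              linarith
          _ = 2 * C * k * W0 (κ l) (sz A (x (σ l'))) := by rw [hB]; ring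
      · have h1 : c₁ * LL ≤ k * W0 (κ l) (B l') := hl2.trans hmax
        rw [div_mul_eq_mul_div, div_le_iff₀ hk0, mul_comm _ (k : ℝ)]
        exact h1
    have hyE : x (σ l') ∈ E := by
      rw [hE, mem_biUnion]
      exact ⟨l, mem_univ _, mem_Exc (hxX _) (hxX _) hrel⟩
    have h1 := hi₀ _ hyE
    rw [← hσlast] at h1
    have h2 := σ.injective h1
    have h3 : l'.val < l.val := hl'
    have h4 := l.isLt
    rw [h2] at h3
    simp only [hlastdef] at h3
    omega

end Pool.Agent.Helper88.NZ
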