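import Pool.Agent.Helper88.NZ.PolyC

set_option autoImplicit false

/-!
MP_120218_co, project TR: all but boundedly many irreducible polynomials, from the structure
theorem for `k` sets with slack.
-/

open Finset Polynomial

namespace Pool.Agent.Helper88.NZ

open Pool.Agent.Helper26.TR

/-- the structure theorem for `k` sets, with slack `θ` in the popularity of the leading digits -/
def NZMixT : Prop :=
  ∀ k : ℕ, ∀ ε : ℝ, 0 < ε → ∀ θ : ℝ, 0 < θ → θ ≤ 1 → ∃ (κ : Fin k → ℝ) (C c : ℝ),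
    (∀ l, 0 < κ l ∧ κ l ≤ 1) ∧ 0 < C ∧ 0 < c ∧
    ∀ (N : ℕ) (A : Fin k → Finset ℤ), (∀ l, (A l).Nonempty) → (∀ l, (0 : ℤ) ∉ A l) →
      (∀ l, (A l).card ≤ N) →
      ((mixSet A).card : ℝ) < c * (N : ℝ) ^ (-ε) * ∏ l, ((A l).card : ℝ) →
      ∃ l : Fin k, 0 < (l : ℕ) ∧
        (∀ (T : Finset ℕ) (e : ℕ → ℕ) (β : ℕ → ℤ), Pop (θ * κ l) (A l) T e β →
          W1 T e β ≤ C * (W0b (κ l) A l + 1)) ∧
        c * (Real.log N * Real.log (Real.log N)) ≤ W0b (κ l) A l

/-- all but boundedly many irreducible polynomials of bounded degree and moderate height map a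
finite set of integers to multiplicatively generic sets, jointly -/
def TRPoly : Prop :=
  ∀ k d : ℕ, 1 ≤ k → ∀ ε : ℝ, 0 < ε → ∃ (m : ℕ) (c : ℝ), 0 < c ∧
    ∀ A : Finset ℤ, A.Nonempty → ∃ E : Finset ℤ[X], E.card ≤ m ∧
      ∀ F : Fin k → ℤ[X],
        (∀ i, Irreducible (F i) ∧ 1 ≤ (F i).natDegree ∧ (F i).natDegree ≤ d ∧
          ∀ j, (|(F i).coeff j| : ℝ) ≤ (A.card : ℝ) ^ (c * Real.log (Real.log A.card))) →
        (univ.filter (fun i => F i ∈ E)).card ≤ 1 →
        c * (A.card : ℝ) ^ ((k : ℝ) - ε) ≤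
          ((mixSet (fun i => A.image (fun a => (F i).eval a))).card : ℝ)

theorem eq_or_neg_of_associated {F G : ℤ[X]} (h : Associated F G) : G = F ∨ G = -F := by
  obtain ⟨u, rfl⟩ := h
  obtain ⟨r, hr, hru⟩ := Polynomial.isUnit_iff.1 u.isUnit
  rw [← hru]
  rcases Int.isUnit_iff.1 hr with h1 | h1
  · left; rw [h1]; simp
  · right; rw [h1]; simp

/-- the relation between polynomials given by the structure theorem -/
def RelP (A : Finset ℤ) (θ κ C W : ℝ) (F G : ℤ[X]) : Prop :=
  (∀ (T : Finset ℕ) (e : ℕ → ℕ) (β : ℕ → ℤ), Pop (θ * κ) (fz A F) T e β →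
    W1 T e β ≤ C * W0 κ (fz A G)) ∧ W ≤ W0 κ (fz A G)

/-- the exceptional polynomials for one relation and one sign of the leading coefficient -/
def ExcP (A : Finset ℤ) (d : ℕ) (H : ℤ) (θ κ C W : ℝ) (s : ℤ) : Set ℤ[X] :=
  {G | Good d H G ∧ 0 < s * G.leadingCoeff ∧ ∃ F, Good d H F ∧ RelP A θ κ C W F G}

theorem not_associated_of_sign {s : ℤ} {F G : ℤ[X]} (hF : 0 < s * F.leadingCoeff)
    (hG : 0 < s * G.leadingCoeff) (hne : F ≠ G) : ¬ Associated F G := by
  intro h
  rcases eq_or_neg_of_associated h with h1 | h1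
  · exact hne h1.symm
  · rw [h1, leadingCoeff_neg, mul_neg] at hG
    linarith

theorem card_ExcP_aux {A : Finset ℤ} {d : ℕ} (hd : 1 ≤ d) (hA : 2 * d ≤ A.card) {κ : ℝ}
    (hκ0 : 0 < κ) (hκ1 : κ ≤ 1) {C : ℝ} (hC0 : 0 ≤ C) {H : ℤ} (hH : 1 ≤ H) {W S : ℝ} {s : ℤ}
    (hS : Real.log (((2 * d).factorial : ℝ) * (H : ℝ) ^ (2 * d)) ≤ S) {m : ℕ}
    (hm : 2 + 2 * (d : ℝ) ^ 2 / κ * C ≤ m) (hW0 : 0 < W)
    (hW : (d : ℝ) * (m + 1) * (((m : ℝ) + 2) ^ 2 * S) ≤ W) (J : Finset ℤ[X])
    (hJ : ∀ G ∈ J, G ∈ ExcP A d H (1 / (2 * (d : ℝ) ^ 3)) κ C W s) : J.card ≤ m := by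
  classical
  by_contra hlt
  push Not at hlt
  obtain ⟨J', hJ'J, hJ'c⟩ := exists_subset_card_eq (s := J) (n := m + 1) (by omega)
  have hne : J'.Nonempty := card_pos.1 (by omega)
  obtain ⟨G₀, hG₀, hmin⟩ := exists_min_image J' (fun G => W0 κ (fz A G)) hne
  obtain ⟨hG₀g, hG₀s, F, hF, hrel, hWG⟩ := hJ G₀ (hJ'J hG₀)
  have hJJ : ∀ G ∈ J', ∀ G' ∈ J', G ≠ G' → ¬ Associated G G' := fun G hG G' hG' h =>
    not_associated_of_sign (hJ G (hJ'J hG)).2.1 (hJ G' (hJ'J hG')).2.1 h
  set K : Finset ℤ[X] := J'.filter (fun G => ¬ Associated F G) with hK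
  have hKJ : K ⊆ J' := filter_subset _ _
  have hKc : m ≤ K.card := by
    have h1 : (J'.filter (fun G => Associated F G)).card ≤ 1 := by
      rw [card_le_one]
      intro G hG G' hG'
      by_contra hne
      exact hJJ G (mem_filter.1 hG).1 G' (mem_filter.1 hG').1 hne
        ((mem_filter.1 hG).2.symm.trans (mem_filter.1 hG').2)
    have h2 := card_filter_add_card_filter_not (s := J') (fun G => Associated F G)
    have h3 : (J'.filter (fun G => ¬ Associated F G)).card = K.card := rfl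
    omega
  have key := one_set hd hA hκ0 hκ1 K F hH (fun G hG => (hJ G (hJ'J (hKJ hG))).1) hF
    (fun G hG G' hG' h => hJJ G (hKJ hG) G' (hKJ hG') h)
    (fun G hG => (mem_filter.1 hG).2) (V := C * W0 κ (fz A G₀)) hrel
  have hWG0 : 0 < W0 κ (fz A G₀) := hW0.trans_le hWG
  have hlow : (m : ℝ) * W0 κ (fz A G₀) ≤ ∑ G ∈ K, W0 κ (fz A G) := by
    calc (m : ℝ) * W0 κ (fz A G₀) ≤ (K.card : ℝ) * W0 κ (fz A G₀) := by
          apply mul_le_mul_of_nonneg_right _ hWG0.le
          exact_mod_cast hKc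
      _ = ∑ _G ∈ K, W0 κ (fz A G₀) := by rw [sum_const, nsmul_eq_mul]
      _ ≤ ∑ G ∈ K, W0 κ (fz A G) := sum_le_sum fun G hG => hmin G (hKJ hG)
  have hKm : (K.card : ℝ) ≤ (m : ℝ) + 1 := by
    have h1 := card_le_card hKJ
    rw [hJ'c] at h1
    exact_mod_cast h1
  have hS0 : 0 ≤ S := by
    refine le_trans (Real.log_nonneg ?_) hS
    have hHr : (1 : ℝ) ≤ H := by exact_mod_cast hH
    have hfac : (1 : ℝ) ≤ ((2 * d).factorial : ℝ) := by
      exact_mod_cast Nat.one_le_iff_ne_zero.2 (Nat.factorial_ne_zero _)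
    calc (1 : ℝ) = 1 * 1 := by norm_num
      _ ≤ _ := mul_le_mul hfac (one_le_pow₀ hHr) (by norm_num) (by positivity)
  have herr : (d : ℝ) * K.card * (((K.card : ℝ) + 1) ^ 2 *
      Real.log (((2 * d).factorial : ℝ) * (H : ℝ) ^ (2 * d))) ≤ W0 κ (fz A G₀) := by
    refine le_trans ?_ (hW.trans hWG)
    apply mul_le_mul
    · exact mul_le_mul_of_nonneg_left hKm (by positivity)
    · calc ((K.card : ℝ) + 1) ^ 2 * Real.log (((2 * d).factorial : ℝ) * (H : ℝ) ^ (2 * d))
          ≤ ((K.card : ℝ) + 1) ^ 2 * S := mul_le_mul_of_nonneg_left hS (by positivity)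
        _ ≤ ((m : ℝ) + 2) ^ 2 * S := by
          apply mul_le_mul_of_nonneg_right _ hS0
          apply pow_le_pow_left₀ (by positivity)
          linarith
    · apply mul_nonneg (by positivity)
      apply Real.log_nonneg
      have hHr : (1 : ℝ) ≤ H := by exact_mod_cast hH
      have hfac : (1 : ℝ) ≤ ((2 * d).factorial : ℝ) := by
        exact_mod_cast Nat.one_le_iff_ne_zero.2 (Nat.factorial_ne_zero _)
      calc (1 : ℝ) = 1 * 1 := by norm_num
        _ ≤ _ := mul_le_mul hfac (one_le_pow₀ hHr) (by norm_num) (by positivity)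
    · positivity
  have h1 : (m : ℝ) * W0 κ (fz A G₀) ≤
      (2 * (d : ℝ) ^ 2 / κ * C + 1) * W0 κ (fz A G₀) := by
    refine hlow.trans (key.trans ?_)
    have : 2 * (d : ℝ) ^ 2 / κ * (C * W0 κ (fz A G₀)) + W0 κ (fz A G₀) =
        (2 * (d : ℝ) ^ 2 / κ * C + 1) * W0 κ (fz A G₀) := by ring
    linarith
  have h2 := le_of_mul_le_mul_right h1 hWG0
  linarith

/-- the exceptional set of one relation is finite and small -/
theorem exists_ExcP {A : Finset ℤ} {d : ℕ} (hd : 1 ≤ d) (hA : 2 * d ≤ A.card) {κ : ℝ}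
    (hκ0 : 0 < κ) (hκ1 : κ ≤ 1) {C : ℝ} (hC0 : 0 ≤ C) {H : ℤ} (hH : 1 ≤ H) {W S : ℝ}
    (hS : Real.log (((2 * d).factorial : ℝ) * (H : ℝ) ^ (2 * d)) ≤ S) {m : ℕ}
    (hm : 2 + 2 * (d : ℝ) ^ 2 / κ * C ≤ m) (hW0 : 0 < W)
    (hW : (d : ℝ) * (m + 1) * (((m : ℝ) + 2) ^ 2 * S) ≤ W) :
    ∃ E : Finset ℤ[X], E.card ≤ 2 * m ∧ ∀ F G, Good d H F → Good d H G →
      RelP A (1 / (2 * (d : ℝ) ^ 3)) κ C W F G → G ∈ E := by
  classical
  have hfin : ∀ s : ℤ, (ExcP A d H (1 / (2 * (d : ℝ) ^ 3)) κ C W s).Finite := by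
    intro s
    by_contra hinf
    obtain ⟨t, ht, htc⟩ := Set.Infinite.exists_subset_card_eq hinf (m + 1)
    have := card_ExcP_aux hd hA hκ0 hκ1 hC0 hH hS hm hW0 hW t (fun G hG => ht (mem_coe.2 hG))
    omega
  have hcard : ∀ s : ℤ, (hfin s).toFinset.card ≤ m := fun s =>
    card_ExcP_aux hd hA hκ0 hκ1 hC0 hH hS hm hW0 hW _
      (fun G hG => (Set.Finite.mem_toFinset _).1 hG)
  refine ⟨(hfin 1).toFinset ∪ (hfin (-1)).toFinset, ?_, ?_⟩
  · have h1 := card_union_le (hfin 1).toFinset (hfin (-1)).toFinset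
    have h2 := hcard 1
    have h3 := hcard (-1)
    omega
  · intro F G hF hG hrel
    have hlc : G.leadingCoeff ≠ 0 := leadingCoeff_ne_zero.2 hG.1.ne_zero
    rw [mem_union, Set.Finite.mem_toFinset, Set.Finite.mem_toFinset]
    rcases lt_or_gt_of_ne hlc with h | h
    · right
      exact ⟨hG, by linarith, F, hF, hrel⟩
    · left
      exact ⟨hG, by linarith, F, hF, hrel⟩

/-- **From the structure theorem for `k` sets to irreducible polynomials.** -/
theorem polynomials (hNZ : NZMixT) : TRPoly := by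
  classical
  intro k d₀ hk ε hε
  set d : ℕ := max d₀ 1 with hdd
  have hd : 1 ≤ d := le_max_right _ _
  have hdr : (1 : ℝ) ≤ d := by exact_mod_cast hd
  have hdr0 : (0 : ℝ) < d := by linarith
  set θ : ℝ := 1 / (2 * (d : ℝ) ^ 3) with hθ
  have hθ0 : 0 < θ := by positivity
  have hθ1 : θ ≤ 1 := by
    rw [hθ, div_le_one (by positivity)]
    have : (1 : ℝ) ≤ (d : ℝ) ^ 3 := one_le_pow₀ hdr
    linarith
  set ε' : ℝ := min ε 1 with hε'
  have hε'0 : 0 < ε' := lt_min hε one_pos
  have hε'1 : ε' ≤ 1 := min_le_right _ _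
  have hk1 : (1 : ℝ) ≤ k := by exact_mod_cast hk
  have hk0 : (0 : ℝ) < k := by linarith
  obtain ⟨κ, C, c₁, hκ, hC, hc₁, hnz⟩ := hNZ k ε' hε'0 θ hθ0 hθ1
  -- the number of exceptions
  have hml : ∀ l : Fin k, ∃ m : ℕ, 2 + 2 * (d : ℝ) ^ 2 / κ l * (2 * C * k) ≤ m :=
    fun l => exists_nat_ge _
  choose ml hml using hml
  set m : ℕ := ∑ l, 2 * ml l with hm
  have hmlm : ∀ l, (ml l : ℝ) ≤ m := by
    intro l
    have h1 : 2 * ml l ≤ m := single_le_sum (f := fun l => 2 * ml l) (fun _ _ => Nat.zero_le _)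
      (mem_univ l)
    have h2 : ml l ≤ m := by omega
    exact_mod_cast h2
  set c₀ : ℝ := c₁ / (k * (d * ((m : ℝ) + 1) * (((m : ℝ) + 2) ^ 2 * (2 * d + 1)))) with hc₀
  have hc₀0 : 0 < c₀ := by positivity
  set Lf : ℝ := Real.log ((2 * d).factorial : ℝ) with hLf
  have hLf0 : 0 ≤ Lf := by
    apply Real.log_nonneg
    exact_mod_cast Nat.one_le_iff_ne_zero.2 (Nat.factorial_ne_zero _)
  -- the threshold
  set L₀ : ℝ := max 16 (1 / c₁ + Lf / c₀ + Real.log (2 * d)) with hL₀
  set c : ℝ := min (c₁ / (2 * d) ^ k) (min c₀ (Real.exp (-(k * L₀)))) with hc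
  have hc0 : 0 < c := by
    rw [hc]
    apply lt_min _ (lt_min _ _) <;> positivity
  have hcc₁ : c ≤ c₁ / (2 * d) ^ k := min_le_left _ _
  have hcc₀ : c ≤ c₀ := (min_le_right _ _).trans (min_le_left _ _)
  have hce : c ≤ Real.exp (-(k * L₀)) := (min_le_right _ _).trans (min_le_right _ _)
  clear_value c
  refine ⟨m, c, hc0, ?_⟩
  intro A hA
  have hN1 : (1 : ℝ) ≤ A.card := by exact_mod_cast card_pos.2 hA
  have hNpos : (0 : ℝ) < A.card := by linarith
  set N : ℝ := (A.card : ℝ) with hN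
  -- small `N`
  by_cases hL0 : Real.log N ≤ L₀
  · refine ⟨∅, by simp, ?_⟩
    intro F _ _
    have h2 : (1 : ℝ) ≤ ((mixSet (fun i => A.image (fun a => (F i).eval a))).card : ℝ) := by
      exact_mod_cast card_pos.2 (mixSet_nonempty (fun i => hA.image _))
    refine le_trans ?_ h2
    have hL0' : 0 ≤ Real.log N := Real.log_nonneg hN1
    calc c * N ^ ((k : ℝ) - ε) ≤ Real.exp (-(k * L₀)) * N ^ (k : ℝ) := by
          apply mul_le_mul hce _ (by positivity) (Real.exp_pos _).le
          exact Real.rpow_le_rpow_of_exponent_le hN1 (by linarith)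
      _ = Real.exp (k * (Real.log N - L₀)) := by
          rw [Real.rpow_def_of_pos hNpos, ← Real.exp_add]
          congr 1
          ring
      _ ≤ Real.exp 0 := by
          apply Real.exp_le_exp.2
          have : Real.log N - L₀ ≤ 0 := by linarith
          nlinarith
      _ = 1 := Real.exp_zero
  push Not at hL0
  have hL16 : 16 ≤ Real.log N := (le_max_left _ _).trans hL0.le
  have hL2 : 1 / c₁ + Lf / c₀ + Real.log (2 * d) ≤ Real.log N := (le_max_right _ _).trans hL0.le
  have hNexp : Real.exp 16 ≤ N := by rwa [← Real.le_log_iff_exp_le hNpos]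
  obtain ⟨-, hLL1, -⟩ := half_log hNexp (M := N) (by linarith)
  have hi1 : 0 < 1 / c₁ := by positivity
  have hi0 : 0 ≤ Lf / c₀ := by positivity
  have hi2 : 0 ≤ Real.log (2 * d) := Real.log_nonneg (by linarith)
  set LL : ℝ := Real.log N * Real.log (Real.log N) with hLL
  have hLLL : Real.log N ≤ LL := by
    rw [hLL]
    nlinarith
  have hLLc₁ : 1 ≤ c₁ * LL := by
    have h1 : 1 / c₁ ≤ LL := by linarith
    rw [div_le_iff₀ hc₁] at h1
    linarith
  have hLLc₀ : Lf ≤ c₀ * LL := by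
    have h1 : Lf / c₀ ≤ LL := by linarith
    rw [div_le_iff₀ hc₀0] at h1
    linarith
  have hLL0 : 0 < LL := by linarith
  have hN2d : 2 * (d : ℝ) ≤ N := by
    rw [← Real.log_le_log_iff (by positivity) hNpos]
    linarith
  have hA2d : 2 * d ≤ A.card := by
    have h1 : (2 : ℝ) * d ≤ (A.card : ℝ) := hN2d
    exact_mod_cast h1
  set X' : ℝ := N ^ (c * Real.log (Real.log N)) with hX
  have hX1 : 1 ≤ X' := by
    apply Real.one_le_rpow hN1
    apply mul_nonneg hc0.le
    linarith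
  have hXpos : 0 < X' := by linarith
  have hlogX : Real.log X' ≤ c₀ * LL := by
    rw [hX, Real.log_rpow hNpos]
    have h1 : c * Real.log (Real.log N) * Real.log N = c * LL := by rw [hLL]; ring
    rw [h1]
    exact mul_le_mul_of_nonneg_right hcc₀ hLL0.le
  set H : ℤ := ⌊X'⌋ with hH
  have hH1 : 1 ≤ H := Int.le_floor.2 (by exact_mod_cast hX1)
  have hHr1 : (1 : ℝ) ≤ H := by exact_mod_cast hH1
  have hHX : (H : ℝ) ≤ X' := Int.floor_le _
  have hlogH : Real.log (((2 * d).factorial : ℝ) * (H : ℝ) ^ (2 * d)) ≤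
      (2 * d + 1) * (c₀ * LL) := by
    rw [Real.log_mul (by positivity) (by positivity), Real.log_pow]
    have h1 : Real.log H ≤ c₀ * LL := (Real.log_le_log (by linarith) hHX).trans hlogX
    have h2 : ((2 * d : ℕ) : ℝ) * Real.log H ≤ (2 * d) * (c₀ * LL) := by
      push_cast
      exact mul_le_mul_of_nonneg_left h1 (by positivity)
    linarith
  -- the exceptional set
  have hEl : ∀ l : Fin k, ∃ E : Finset ℤ[X], E.card ≤ 2 * ml l ∧ ∀ F G, Good d H F →
      Good d H G → RelP A θ (κ l) (2 * C * k) (c₁ / k * LL) F G → G ∈ E := by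
    intro l
    refine exists_ExcP hd hA2d (hκ l).1 (hκ l).2 (by positivity) hH1 hlogH (hml l)
      (by positivity) ?_
    calc (d : ℝ) * ((ml l : ℝ) + 1) * (((ml l : ℝ) + 2) ^ 2 * ((2 * d + 1) * (c₀ * LL)))
        ≤ (d : ℝ) * ((m : ℝ) + 1) * (((m : ℝ) + 2) ^ 2 * ((2 * d + 1) * (c₀ * LL))) := by
          have := hmlm l
          gcongr
      _ = ((d * ((m : ℝ) + 1) * (((m : ℝ) + 2) ^ 2 * (2 * d + 1))) * c₀) * LL := by ring
      _ = c₁ / k * LL := by
          congr 1
          rw [hc₀]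
          field_simp
  choose El hEl1 hEl2 using hEl
  refine ⟨univ.biUnion El, ?_, ?_⟩
  · refine card_biUnion_le.trans ?_
    rw [hm]
    exact sum_le_sum fun l _ => hEl1 l
  · intro F hF hFE
    set E : Finset ℤ[X] := univ.biUnion El with hE
    have hgood : ∀ i, Good d H (F i) := by
      intro i
      obtain ⟨h1, h2, h3, h4⟩ := hF i
      refine ⟨h1, h2, h3.trans (le_max_left _ _), fun j => ?_⟩
      rw [hH]
      apply Int.le_floor.2
      have := h4 j
      push_cast
      exact this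
    by_contra hcon
    push Not at hcon
    -- the position in `E` is moved to the end
    have hlast : k - 1 < k := by omega
    set last : Fin k := ⟨k - 1, hlast⟩ with hlastdef
    obtain ⟨i₀, hi₀⟩ : ∃ i₀ : Fin k, ∀ i, F i ∈ E → i = i₀ := by
      by_cases h : ∃ i, F i ∈ E
      · obtain ⟨i, hi⟩ := h
        refine ⟨i, fun j hj => ?_⟩
        exact card_le_one.1 hFE j (mem_filter.2 ⟨mem_univ _, hj⟩) i
          (mem_filter.2 ⟨mem_univ _, hi⟩)
      · exact ⟨last, fun i hi => absurd ⟨i, hi⟩ h⟩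
    set σ : Equiv.Perm (Fin k) := Equiv.swap i₀ last with hσ
    have hσlast : σ last = i₀ := Equiv.swap_apply_right _ _
    set B : Fin k → Finset ℤ := fun i => fz A (F (σ i)) with hB
    have hBc : ∀ i, N / (2 * d) ≤ ((B i).card : ℝ) := by
      intro i
      have h1 := card_fz (hgood (σ i)).2.1 (hgood (σ i)).2.2.1 hA2d
      have h2 : N ≤ 2 * d * ((B i).card : ℝ) := by
        rw [hN]
        exact_mod_cast h1
      rw [div_le_iff₀ (by positivity)]
      linarith
    have hBne : ∀ i, (B i).Nonempty := by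
      intro i
      rw [← card_pos]
      have h1 := hBc i
      have h2 : 0 < N / (2 * d) := by positivity
      have h3 : (0 : ℝ) < ((B i).card : ℝ) := by linarith
      exact_mod_cast h3
    have hsub : ((mixSet B).card : ℝ) ≤
        ((mixSet (fun i => A.image (fun a => (F i).eval a))).card : ℝ) := by
      apply Nat.cast_le.2
      apply card_le_card
      rw [← mixSet_perm (fun i => A.image (fun a => (F i).eval a)) σ]
      apply mixSet_mono
      intro i
      exact erase_subset _ _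
    have hprod : (N / (2 * d)) ^ k ≤ ∏ l, ((B l).card : ℝ) := by
      have h1 : (N / (2 * d)) ^ k = ∏ _l : Fin k, (N / (2 * d)) := by
        rw [prod_const, card_univ, Fintype.card_fin]
      rw [h1]
      exact prod_le_prod (fun _ _ => by positivity) fun l _ => hBc l
    have hlt : ((mixSet B).card : ℝ) < c₁ * ((A.card : ℕ) : ℝ) ^ (-ε') *
        ∏ l, ((B l).card : ℝ) := by
      refine (hsub.trans_lt hcon).trans_le ?_
      calc c * N ^ ((k : ℝ) - ε) ≤ c₁ / (2 * d) ^ k * N ^ ((k : ℝ) - ε') := by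
            apply mul_le_mul hcc₁ _ (by positivity) (by positivity)
            apply Real.rpow_le_rpow_of_exponent_le hN1
            have : ε' ≤ ε := min_le_left _ _
            linarith
        _ = c₁ * N ^ (-ε') * (N / (2 * d)) ^ k := by
            rw [show (k : ℝ) - ε' = -ε' + k by ring, Real.rpow_add hNpos, Real.rpow_natCast,
              div_pow]
            ring
        _ ≤ c₁ * N ^ (-ε') * ∏ l, ((B l).card : ℝ) := by
            apply mul_le_mul_of_nonneg_left hprod (by positivity)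
    obtain ⟨l, hl0, hl1, hl2⟩ := hnz A.card B hBne (fun i => fz_zero A _)
      (fun i => card_fz_le A _) hlt
    have hWb : 0 < W0b (κ l) B l := by
      have : 0 < c₁ * LL := by positivity
      exact this.trans_le hl2
    have hWb1 : 1 ≤ W0b (κ l) B l := hLLc₁.trans hl2
    -- the largest of the weights
    obtain ⟨l', hl', hmax⟩ : ∃ l' : Fin k, l' < l ∧ W0b (κ l) B l ≤ k * W0 (κ l) (B l') := by
      by_contra hno
      push Not at hno
      have h1 : W0b (κ l) B l ≤ ∑ l' ∈ univ.filter (fun l' : Fin k => l' < l),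
          W0b (κ l) B l / k := by
        conv_lhs => unfold W0b
        apply sum_le_sum
        intro l' hl'
        rw [le_div_iff₀ hk0, mul_comm]
        exact (hno l' (mem_filter.1 hl').2).le
      rw [sum_const, nsmul_eq_mul] at h1
      have h2 : (univ.filter (fun l' : Fin k => l' < l)).card < k := by
        have h3 : univ.filter (fun l' : Fin k => l' < l) ⊂ univ := by
          rw [filter_ssubset]
          exact ⟨l, mem_univ _, lt_irrefl _⟩
        have h4 := card_lt_card h3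
        rwa [card_univ, Fintype.card_fin] at h4
      have h3 : ((univ.filter (fun l' : Fin k => l' < l)).card : ℝ) < k := by exact_mod_cast h2
      have h4 : ((univ.filter (fun l' : Fin k => l' < l)).card : ℝ) * (W0b (κ l) B l / k) <
          k * (W0b (κ l) B l / k) := mul_lt_mul_of_pos_right h3 (by positivity)
      have h5 : (k : ℝ) * (W0b (κ l) B l / k) = W0b (κ l) B l := by field_simp
      linarith
    have hrel : RelP A θ (κ l) (2 * C * k) (c₁ / k * LL) (F (σ l)) (F (σ l')) := by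
      constructor
      · intro T e β hP
        refine (hl1 T e β hP).trans ?_
        calc C * (W0b (κ l) B l + 1) ≤ C * (2 * W0b (κ l) B l) := by
              apply mul_le_mul_of_nonneg_left _ hC.le
              linarith
          _ ≤ C * (2 * (k * W0 (κ l) (B l'))) := by
              apply mul_le_mul_of_nonneg_left _ hC.le
              linarith
          _ = 2 * C * k * W0 (κ l) (fz A (F (σ l'))) := by rw [hB]; ring
      · have h1 : c₁ * LL ≤ k * W0 (κ l) (B l') := hl2.trans hmax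
        rw [div_mul_eq_mul_div, div_le_iff₀ hk0, mul_comm _ (k : ℝ)]
        exact h1
    have hyE : F (σ l') ∈ E := by
      rw [hE, mem_biUnion]
      exact ⟨l, mem_univ _, hEl2 l _ _ (hgood _) (hgood _) hrel⟩
    have h1 := hi₀ _ hyE
    rw [← hσlast] at h1
    have h2 := σ.injective h1
    have h3 : l'.val < l.val := hl'
    have h4 := l.isLt
    rw [h2] at h3
    simp only [hlastdef] at h3
    omega

end Pool.Agent.Helper88.NZ
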