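import Mathlib

set_option autoImplicit false

/-!
MP_120218_co, project TR: integer polynomials at integer points modulo prime powers.
-/

open Finset Polynomial

namespace Pool.Agent.Helper88.NZ

theorem dvd_of_pow_dvd_mul {q : ℕ} (hq : q.Prime) {s c : ℕ} {x u : ℤ}
    (hx : ¬ (q : ℤ) ^ (s + 1) ∣ x) (h : (q : ℤ) ^ c ∣ x * u) : (q : ℤ) ^ (c - s) ∣ u := by
  have hqf := Fact.mk hq
  have hx0 : x ≠ 0 := fun h0 => hx (h0 ▸ dvd_zero _)
  by_cases hu0 : u = 0
  · rw [hu0]; exact dvd_zero _
  rw [padicValInt_dvd_iff] at h hx ⊢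
  right
  rcases h with h | h
  · exact absurd h (mul_ne_zero hx0 hu0)
  · rw [padicValInt.mul hx0 hu0] at h
    have h1 : ¬ (s + 1 ≤ padicValInt q x) := fun h1 => hx (Or.inr h1)
    omega

/-- Newton interpolation: a polynomial of degree at most `d` whose values at `d + 1` integers,
pairwise incongruent modulo `q ^ (s + 1)`, are divisible by `q ^ l`, is divisible by
`q ^ (l - d * s)`. -/
theorem newton {q : ℕ} (hq : q.Prime) (s : ℕ) : ∀ (d : ℕ) (G : ℤ[X]) (l : ℕ) (S : Finset ℤ),
    G.natDegree ≤ d → S.card = d + 1 → (∀ a ∈ S, (q : ℤ) ^ l ∣ G.eval a) →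
    (∀ a ∈ S, ∀ b ∈ S, a ≠ b → ¬ (q : ℤ) ^ (s + 1) ∣ a - b) →
    C ((q : ℤ) ^ (l - d * s)) ∣ G := by
  intro d
  induction d with
  | zero =>
    intro G l S hG hS hdvd _
    obtain ⟨a, ha⟩ := card_pos.1 (by omega : 0 < S.card)
    rw [eq_C_of_natDegree_le_zero hG]
    rw [zero_mul, Nat.sub_zero]
    have h := hdvd a ha
    rw [eq_C_of_natDegree_le_zero hG, eval_C] at h
    exact _root_.map_dvd C h
  | succ d ih =>
    intro G l S hG hS hdvd hsep
    obtain ⟨a, ha⟩ := card_pos.1 (by omega : 0 < S.card)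
    obtain ⟨G₁, hG₁⟩ := X_sub_C_dvd_sub_C_eval (a := a) (p := G)
    have hdeg : G₁.natDegree ≤ d := by
      by_cases h0 : G₁ = 0
      · rw [h0]; simp
      · have h1 : ((X - C a) * G₁).natDegree = 1 + G₁.natDegree := by
          rw [(monic_X_sub_C a).natDegree_mul' h0, natDegree_X_sub_C]
        have h2 : (G - C (G.eval a)).natDegree ≤ d + 1 := by
          rw [natDegree_sub_C]; exact hG
        rw [hG₁, h1] at h2
        omega
    have h3 : C ((q : ℤ) ^ ((l - s) - d * s)) ∣ G₁ := by
      apply ih G₁ (l - s) (S.erase a) hdeg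
      · rw [card_erase_of_mem ha]; omega
      · intro b hb
        have hbS := mem_of_mem_erase hb
        have hba := ne_of_mem_erase hb
        have h4 : G.eval b - G.eval a = (b - a) * G₁.eval b := by
          have := congrArg (eval b) hG₁
          simpa using this
        apply dvd_of_pow_dvd_mul hq (hsep b hbS a ha hba)
        rw [← h4]
        exact dvd_sub (hdvd b hbS) (hdvd a ha)
      · intro b hb c hc hbc
        exact hsep b (mem_of_mem_erase hb) c (mem_of_mem_erase hc) hbc
    have h5 : G = C (G.eval a) + (X - C a) * G₁ := by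
      rw [← hG₁]; ring
    have h6 : (l - s) - d * s = l - (d + 1) * s := by
      rw [Nat.sub_sub]
      congr 1
      ring
    rw [h6] at h3
    rw [h5]
    apply dvd_add
    · apply _root_.map_dvd C
      exact (pow_dvd_pow _ (Nat.sub_le _ _)).trans (hdvd a ha)
    · exact h3.mul_left _

/-- the points where a primitive polynomial is divisible by `q ^ l` lie in few classes -/
theorem card_classes {G : ℤ[X]} (hG : G.IsPrimitive) {d : ℕ} (hd : G.natDegree ≤ d) {q : ℕ}
    (hq : q.Prime) {l t : ℕ} (ht : d * (t - 1) < l) (T : Finset ℤ)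
    (hT : ∀ a ∈ T, (q : ℤ) ^ l ∣ G.eval a) :
    (T.image (fun a => a % (q : ℤ) ^ t)).card ≤ d := by
  classical
  by_contra hlt
  push Not at hlt
  obtain ⟨R, hR, hRc⟩ := exists_subset_card_eq (s := T.image (fun a => a % (q : ℤ) ^ t))
    (n := d + 1) (by omega)
  have hch : ∀ r : ℤ, ∃ a : ℤ, r ∈ R → a ∈ T ∧ a % (q : ℤ) ^ t = r := by
    intro r
    by_cases hr : r ∈ R
    · obtain ⟨a, ha, har⟩ := mem_image.1 (hR hr)
      exact ⟨a, fun _ => ⟨ha, har⟩⟩
    · exact ⟨0, fun h => absurd h hr⟩
  choose f hf using hch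
  have hinj : Set.InjOn f R := by
    intro r hr r' hr' h
    rw [← (hf r (mem_coe.1 hr)).2, ← (hf r' (mem_coe.1 hr')).2, h]
  have h1 := newton hq (t - 1) d G l (R.image f) hd
    (by rw [card_image_of_injOn hinj, hRc])
    (by
      intro a ha
      obtain ⟨r, hr, rfl⟩ := mem_image.1 ha
      exact hT _ (hf r hr).1)
    (by
      intro a ha b hb hab hdvd
      obtain ⟨r, hr, rfl⟩ := mem_image.1 ha
      obtain ⟨r', hr', rfl⟩ := mem_image.1 hb
      apply hab
      have h2 : (q : ℤ) ^ t ∣ f r - f r' := (pow_dvd_pow _ (by omega)).trans hdvd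
      have h3 : f r % (q : ℤ) ^ t = f r' % (q : ℤ) ^ t :=
        (Int.emod_emod_of_dvd _ dvd_rfl).symm.trans (by
          rw [Int.emod_emod_of_dvd _ dvd_rfl]
          exact Int.emod_eq_emod_iff_emod_sub_eq_zero.2 (Int.emod_eq_zero_of_dvd h2))
      rw [(hf r hr).2, (hf r' hr').2] at h3
      rw [h3])
  have h2 : C ((q : ℤ) ^ 1) ∣ G := (_root_.map_dvd C (pow_dvd_pow _ (by omega))).trans h1
  rw [pow_one] at h2
  have h3 := hG (q : ℤ) h2
  rw [Int.isUnit_iff] at h3
  have h4 := hq.two_le
  rcases h3 with h3 | h3 <;> omega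

/-- one of the classes is popular -/
theorem exists_class {G : ℤ[X]} (hG : G.IsPrimitive) {d : ℕ} (hd : G.natDegree ≤ d) {q : ℕ}
    (hq : q.Prime) {l t : ℕ} (ht : d * (t - 1) < l) {T : Finset ℤ} (hTne : T.Nonempty)
    (hT : ∀ a ∈ T, (q : ℤ) ^ l ∣ G.eval a) :
    ∃ r ∈ T, T.card ≤ d * (T.filter (fun a => (q : ℤ) ^ t ∣ a - r)).card := by
  classical
  by_contra hcon
  push Not at hcon
  have h1 := card_classes hG hd hq ht T hT
  have h2 := card_eq_sum_card_image (fun a => a % (q : ℤ) ^ t) T
  obtain ⟨x, hx⟩ := hTne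
  have hd0 : 0 < d := by
    have : 0 < (T.image (fun a => a % (q : ℤ) ^ t)).card := card_pos.2 ⟨_, mem_image_of_mem _ hx⟩
    omega
  have h3 : ∀ c ∈ T.image (fun a => a % (q : ℤ) ^ t),
      d * (T.filter (fun a => a % (q : ℤ) ^ t = c)).card < T.card := by
    intro c hc
    obtain ⟨r, hr, rfl⟩ := mem_image.1 hc
    have h4 := hcon r hr
    have h5 : T.filter (fun a => a % (q : ℤ) ^ t = r % (q : ℤ) ^ t) =
        T.filter (fun a => (q : ℤ) ^ t ∣ a - r) := by
      ext a
      rw [mem_filter, mem_filter, Int.emod_eq_emod_iff_emod_sub_eq_zero]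
      constructor
      · rintro ⟨h6, h7⟩; exact ⟨h6, Int.dvd_of_emod_eq_zero h7⟩
      · rintro ⟨h6, h7⟩; exact ⟨h6, Int.emod_eq_zero_of_dvd h7⟩
    rw [h5]
    exact h4
  have h4 : d * T.card < d * T.card := by
    calc d * T.card = ∑ c ∈ T.image (fun a => a % (q : ℤ) ^ t),
          d * (T.filter (fun a => a % (q : ℤ) ^ t = c)).card := by
          rw [← mul_sum, ← h2]
      _ < ∑ _c ∈ T.image (fun a => a % (q : ℤ) ^ t), T.card :=
          sum_lt_sum_of_nonempty ⟨_, mem_image_of_mem _ hx⟩ h3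
      _ = (T.image (fun a => a % (q : ℤ) ^ t)).card * T.card := by
          rw [sum_const, smul_eq_mul]
      _ ≤ d * T.card := Nat.mul_le_mul_right _ h1
  exact lt_irrefl _ h4

/-- the number of points with a given value -/
theorem card_fibre_le {F : ℤ[X]} (hF : 1 ≤ F.natDegree) {d : ℕ} (hd : F.natDegree ≤ d)
    (A : Finset ℤ) (b : ℤ) : (A.filter (fun a => F.eval a = b)).card ≤ d := by
  classical
  have hne : F - C b ≠ 0 := by
    intro h
    have h1 : (F - C b).natDegree = F.natDegree := natDegree_sub_C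
    rw [h, natDegree_zero] at h1
    omega
  have h1 : A.filter (fun a => F.eval a = b) ⊆ (F - C b).roots.toFinset := by
    intro a ha
    rw [Multiset.mem_toFinset, mem_roots hne, IsRoot, eval_sub, eval_C, (mem_filter.1 ha).2,
      sub_self]
  calc (A.filter (fun a => F.eval a = b)).card ≤ (F - C b).roots.toFinset.card := card_le_card h1
    _ ≤ Multiset.card (F - C b).roots := Multiset.toFinset_card_le _
    _ ≤ (F - C b).natDegree := card_roots' _
    _ ≤ d := by rw [natDegree_sub_C]; exact hd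

theorem card_le_image {F : ℤ[X]} (hF : 1 ≤ F.natDegree) {d : ℕ} (hd : F.natDegree ≤ d)
    (A : Finset ℤ) : A.card ≤ d * (A.image (fun a => F.eval a)).card := by
  classical
  exact card_le_mul_card_image A d (fun b _ => card_fibre_le hF hd A b)

/-- the resultant of two integer polynomials -/
noncomputable def res (F G : ℤ[X]) : ℤ := resultant F G

theorem exists_res {F G : ℤ[X]} (hF : 1 ≤ F.natDegree) :
    ∃ U V : ℤ[X], ∀ a : ℤ, res F G = F.eval a * U.eval a + G.eval a * V.eval a := by
  obtain ⟨U, V, -, -, h⟩ := exists_mul_add_mul_eq_C_resultant (m := F.natDegree)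
    (n := G.natDegree) F G le_rfl le_rfl (by omega)
  refine ⟨U, V, fun a => ?_⟩
  have h1 := congrArg (eval a) h
  rw [eval_add, eval_mul, eval_mul, eval_C] at h1
  exact h1.symm

theorem dvd_res {F G : ℤ[X]} (hF : 1 ≤ F.natDegree) {n a : ℤ} (h1 : n ∣ F.eval a)
    (h2 : n ∣ G.eval a) : n ∣ res F G := by
  obtain ⟨U, V, h⟩ := exists_res (F := F) (G := G) hF
  rw [h a]
  exact dvd_add (h1.mul_right _) (h2.mul_right _)

theorem res_ne_zero {F G : ℤ[X]} (hF : Irreducible F) (hG : Irreducible G)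
    (hFd : 1 ≤ F.natDegree) (hGd : 1 ≤ G.natDegree) (hFG : ¬ Associated F G) : res F G ≠ 0 := by
  intro h0
  have hFp : F.IsPrimitive := hF.isPrimitive (by omega)
  have hGp : G.IsPrimitive := hG.isPrimitive (by omega)
  have hF' : Irreducible (F.map (Int.castRingHom ℚ)) :=
    (IsPrimitive.Int.irreducible_iff_irreducible_map_cast hFp).1 hF
  have hG' : Irreducible (G.map (Int.castRingHom ℚ)) :=
    (IsPrimitive.Int.irreducible_iff_irreducible_map_cast hGp).1 hG
  have hinj : Function.Injective (Int.castRingHom ℚ) := by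
    intro a b h
    simpa using h
  have h1 : resultant (F.map (Int.castRingHom ℚ)) (G.map (Int.castRingHom ℚ)) = 0 := by
    rw [natDegree_map_eq_of_injective hinj, natDegree_map_eq_of_injective hinj,
      resultant_map_map]
    unfold res at h0
    rw [h0, map_zero]
  rw [resultant_eq_zero_iff] at h1
  apply h1.2
  rw [hF'.coprime_iff_not_dvd]
  intro hdvd
  have h2 : F ∣ G := (IsPrimitive.Int.dvd_iff_map_cast_dvd_map_cast F G hFp).2 hdvd
  exact hFG (hF.associated_of_dvd hG h2)

theorem res_le {F G : ℤ[X]} {d : ℕ} (hFd : F.natDegree ≤ d) (hGd : G.natDegree ≤ d) {H : ℤ}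
    (hH : 1 ≤ H) (hF : ∀ j, |F.coeff j| ≤ H) (hG : ∀ j, |G.coeff j| ≤ H) :
    |res F G| ≤ (2 * d).factorial * H ^ (2 * d) := by
  have h1 : |res F G| ≤ (F.natDegree + G.natDegree).factorial •
      H ^ (F.natDegree + G.natDegree) := by
    have h2 := Matrix.det_le (A := sylvester F G F.natDegree G.natDegree)
      (abv := AbsoluteValue.abs) (x := H) (by
        intro i j
        rw [sylvester, Matrix.of_apply]
        simp only [AbsoluteValue.abs_apply]
        refine Fin.addCases (fun j₁ => ?_) (fun j₁ => ?_) j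
        · rw [Fin.addCases_left]
          split_ifs
          · exact hG _
          · rw [abs_zero]; linarith
        · rw [Fin.addCases_right]
          split_ifs
          · exact hF _
          · rw [abs_zero]; linarith)
    rw [Fintype.card_fin] at h2
    exact h2
  refine h1.trans ?_
  rw [nsmul_eq_mul]
  have h3 : F.natDegree + G.natDegree ≤ 2 * d := by omega
  apply mul_le_mul _ (pow_le_pow_right₀ hH h3) (by positivity) (by positivity)
  exact_mod_cast Nat.factorial_le h3

end Pool.Agent.Helper88.NZ
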