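import Pool.Agent.Helper88.NZ.Mix
import Pool.Agent.Helper88.NZ.PolyA

set_option autoImplicit false

/-!
MP_120218_co, project TR: popular valuations of the values of several polynomials on one set.
-/

open Finset Polynomial

namespace Pool.Agent.Helper88.NZ

open Pool.Agent.Helper26.TR

/-- the non-zero values of a polynomial on a set -/
noncomputable def fz (A : Finset ℤ) (F : ℤ[X]) : Finset ℤ :=
  (A.image (fun a => F.eval a)).erase 0

theorem fz_zero (A : Finset ℤ) (F : ℤ[X]) : (0 : ℤ) ∉ fz A F := notMem_erase _ _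

theorem card_fz_le (A : Finset ℤ) (F : ℤ[X]) : (fz A F).card ≤ A.card :=
  (card_le_card (erase_subset _ _)).trans card_image_le

/-- irreducible polynomials of degree between `1` and `d`, with coefficients at most `H` -/
def Good (d : ℕ) (H : ℤ) (F : ℤ[X]) : Prop :=
  Irreducible F ∧ 1 ≤ F.natDegree ∧ F.natDegree ≤ d ∧ ∀ j, |F.coeff j| ≤ H

theorem card_fz {A : Finset ℤ} {F : ℤ[X]} (hF : 1 ≤ F.natDegree) {d : ℕ} (hd : F.natDegree ≤ d)
    (hA : 2 * d ≤ A.card) : A.card ≤ 2 * d * (fz A F).card := by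
  classical
  have h1 := card_le_image hF hd A
  have h2 : (A.image (fun a => F.eval a)).card ≤ (fz A F).card + 1 := by
    have : (A.image (fun a => F.eval a)).card - 1 ≤ (fz A F).card := pred_card_le_card_erase
    omega
  have h3 : d * (A.image (fun a => F.eval a)).card ≤ d * ((fz A F).card + 1) :=
    Nat.mul_le_mul_left _ h2
  have h4 : A.card ≤ d * (fz A F).card + d := by
    have : d * ((fz A F).card + 1) = d * (fz A F).card + d := by ring
    omega
  have h5 : 2 * d * (fz A F).card = 2 * (d * (fz A F).card) := by ring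
  omega

/-- popular divisibility of the values, in terms of the points -/
theorem pop_points {A : Finset ℤ} {G : ℤ[X]} (hG : 1 ≤ G.natDegree) {d : ℕ}
    (hd : G.natDegree ≤ d) (hA : 2 * d ≤ A.card) {κ : ℝ} (hκ0 : 0 ≤ κ) (hκ1 : κ ≤ 1) {q l : ℕ}
    (hl : l ≤ lev κ (fz A G) q) :
    κ * A.card ≤ 2 * d * ((A.filter (fun a => (q : ℤ) ^ l ∣ G.eval a)).card : ℝ) := by
  classical
  have h1 := dvd_lev hκ1 (fz A G) q hl
  have h2 : ((fz A G).filter (fun a => (q : ℤ) ^ l ∣ a)).card ≤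
      (A.filter (fun a => (q : ℤ) ^ l ∣ G.eval a)).card := by
    have h3 : (fz A G).filter (fun a => (q : ℤ) ^ l ∣ a) ⊆
        (A.filter (fun a => (q : ℤ) ^ l ∣ G.eval a)).image (fun a => G.eval a) := by
      intro b hb
      rw [mem_filter] at hb
      unfold fz at hb
      obtain ⟨a, ha, rfl⟩ := mem_image.1 (mem_of_mem_erase hb.1)
      exact mem_image_of_mem _ (mem_filter.2 ⟨ha, hb.2⟩)
    exact (card_le_card h3).trans card_image_le
  have h4 : (A.card : ℝ) ≤ 2 * d * (fz A G).card := by exact_mod_cast card_fz hG hd hA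
  calc κ * A.card ≤ κ * (2 * d * (fz A G).card) := mul_le_mul_of_nonneg_left h4 hκ0
    _ = 2 * d * (κ * (fz A G).card) := by ring
    _ ≤ 2 * d * (((fz A G).filter (fun a => (q : ℤ) ^ l ∣ a)).card : ℝ) :=
        mul_le_mul_of_nonneg_left h1 (by positivity)
    _ ≤ 2 * d * ((A.filter (fun a => (q : ℤ) ^ l ∣ G.eval a)).card : ℝ) := by
        apply mul_le_mul_of_nonneg_left _ (by positivity)
        exact_mod_cast h2

/-- the largest power of `q` in the resultants, summed over the pairs -/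
noncomputable def rsep (P : Finset ℤ[X]) (q : ℕ) : ℕ :=
  ∑ z ∈ P.offDiag, padicValInt q (res z.1 z.2)

theorem le_rsep {P : Finset ℤ[X]} {F G : ℤ[X]} (hF : F ∈ P) (hG : G ∈ P) (hFG : F ≠ G) (q : ℕ) :
    padicValInt q (res F G) ≤ rsep P q := by
  have h : (F, G) ∈ P.offDiag := mem_offDiag.2 ⟨hF, hG, hFG⟩
  have h1 := single_le_sum (s := P.offDiag)
    (f := fun z : ℤ[X] × ℤ[X] => padicValInt q (res z.1 z.2)) (fun _ _ => Nat.zero_le _) h
  unfold rsep
  exact h1

theorem sum_rsep_le (P : Finset ℤ[X]) (F : Finset ℕ) (hF : ∀ q ∈ F, q.Prime) {S : ℝ}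
    (hne : ∀ z ∈ P.offDiag, res z.1 z.2 ≠ 0)
    (hS : ∀ z ∈ P.offDiag, Real.log (res z.1 z.2).natAbs ≤ S) (hS0 : 0 ≤ S) :
    ∑ q ∈ F, (rsep P q : ℝ) * Real.log q ≤ (P.card : ℝ) ^ 2 * S := by
  classical
  have h1 : ∀ q ∈ F, (rsep P q : ℝ) * Real.log q =
      ∑ z ∈ P.offDiag, (padicValInt q (res z.1 z.2) : ℝ) * Real.log q := by
    intro q _
    rw [← sum_mul]
    unfold rsep
    push_cast
    rfl
  calc ∑ q ∈ F, (rsep P q : ℝ) * Real.log q
      = ∑ q ∈ F, ∑ z ∈ P.offDiag, (padicValInt q (res z.1 z.2) : ℝ) * Real.log q :=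
        sum_congr rfl h1
    _ = ∑ z ∈ P.offDiag, ∑ q ∈ F, (padicValInt q (res z.1 z.2) : ℝ) * Real.log q := sum_comm
    _ ≤ ∑ _z ∈ P.offDiag, S := by
        apply sum_le_sum
        intro z hz
        exact (sum_val_le F hF (hne z hz)).trans (hS z hz)
    _ = (P.offDiag.card : ℝ) * S := by rw [sum_const, nsmul_eq_mul]
    _ ≤ (P.card : ℝ) ^ 2 * S := by
        apply mul_le_mul_of_nonneg_right _ hS0
        have : P.offDiag.card ≤ P.card * P.card := by
          rw [offDiag_card]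
          exact Nat.sub_le _ _
        rw [sq]
        exact_mod_cast this

/-- the elements where different polynomials are divisible by a high power are different -/
theorem card_pop_poly {A : Finset ℤ} (hA : A.Nonempty) {κ : ℝ} {d q l : ℕ}
    (Y : Finset ℤ[X]) (hdeg : ∀ G ∈ Y, 1 ≤ G.natDegree)
    (hres : ∀ G ∈ Y, ∀ G' ∈ Y, G ≠ G' → ¬ (q : ℤ) ^ l ∣ res G G')
    (hpop : ∀ G ∈ Y, κ * A.card ≤
      2 * d * ((A.filter (fun a => (q : ℤ) ^ l ∣ G.eval a)).card : ℝ)) :
    κ * Y.card ≤ 2 * d := by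
  classical
  have hAp : (0 : ℝ) < A.card := by exact_mod_cast card_pos.2 hA
  have hdis : (Y : Set ℤ[X]).PairwiseDisjoint
      (fun G => A.filter (fun a => (q : ℤ) ^ l ∣ G.eval a)) := by
    intro G hG G' hG' hne
    rw [Function.onFun, disjoint_left]
    intro a ha ha'
    rw [mem_filter] at ha ha'
    exact hres G hG G' hG' hne (dvd_res (hdeg G hG) ha.2 ha'.2)
  have h1 : ∑ G ∈ Y, (A.filter (fun a => (q : ℤ) ^ l ∣ G.eval a)).card ≤ A.card := by
    rw [← card_biUnion (fun x hx y hy hxy => hdis hx hy hxy)]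
    apply card_le_card
    intro a ha
    obtain ⟨y, _, hy⟩ := mem_biUnion.1 ha
    exact (mem_filter.1 hy).1
  have h2 : ∑ _G ∈ Y, κ * (A.card : ℝ) ≤ 2 * d * A.card := by
    refine (sum_le_sum hpop).trans ?_
    rw [← mul_sum]
    apply mul_le_mul_of_nonneg_left _ (by positivity)
    exact_mod_cast h1
  rw [sum_const, nsmul_eq_mul] at h2
  have h3 : (κ * Y.card) * A.card ≤ (2 * d) * A.card := by linarith
  exact le_of_mul_le_mul_right h3 hAp

/-- popular leading digits of the values of `F` from a popular class of points -/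
theorem pop_values {A : Finset ℤ} {F : ℤ[X]} (hF : 1 ≤ F.natDegree) {d : ℕ}
    (hd : F.natDegree ≤ d) {q t : ℕ} {r : ℤ} (hr : ¬ (q : ℤ) ^ t ∣ F.eval r) (T : Finset ℤ)
    (hT : T ⊆ A) (hTr : ∀ a ∈ T, (q : ℤ) ^ t ∣ a - r) :
    T.card ≤ d * ((fz A F).filter (fun b => (q : ℤ) ^ t ∣ b - F.eval r)).card := by
  classical
  have h1 := card_le_image hF hd T
  refine h1.trans (Nat.mul_le_mul_left _ (card_le_card ?_))
  intro b hb
  obtain ⟨a, ha, rfl⟩ := mem_image.1 hb
  have h2 : (q : ℤ) ^ t ∣ F.eval a - F.eval r := (hTr a ha).trans (sub_dvd_eval_sub a r F)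
  rw [mem_filter]
  refine ⟨?_, h2⟩
  unfold fz
  rw [mem_erase]
  refine ⟨?_, mem_image_of_mem _ (hT ha)⟩
  intro h0
  apply hr
  rw [h0, zero_sub] at h2
  exact (dvd_neg).1 h2

/-- **One-set inequality.** -/
theorem one_set {A : Finset ℤ} {d : ℕ} (hd : 1 ≤ d) (hA : 2 * d ≤ A.card) {κ : ℝ} (hκ0 : 0 < κ)
    (hκ1 : κ ≤ 1) (J : Finset ℤ[X]) (F : ℤ[X]) {H : ℤ} (hH : 1 ≤ H)
    (hJ : ∀ G ∈ J, Good d H G) (hF : Good d H F)
    (hJJ : ∀ G ∈ J, ∀ G' ∈ J, G ≠ G' → ¬ Associated G G') (hFJ : ∀ G ∈ J, ¬ Associated F G)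
    {V : ℝ} (hpop : ∀ (T : Finset ℕ) (e : ℕ → ℕ) (β : ℕ → ℤ),
      Pop (1 / (2 * (d : ℝ) ^ 3) * κ) (fz A F) T e β → W1 T e β ≤ V) :
    ∑ G ∈ J, W0 κ (fz A G) ≤ 2 * (d : ℝ) ^ 2 / κ * V + d * J.card *
      (((J.card : ℝ) + 1) ^ 2 * Real.log (((2 * d).factorial : ℝ) * (H : ℝ) ^ (2 * d))) := by
  classical
  have hdr : (1 : ℝ) ≤ d := by exact_mod_cast hd
  have hdr0 : (0 : ℝ) < d := by linarith
  have hAne : A.Nonempty := card_pos.1 (by omega)
  set P : Finset ℤ[X] := insert F J with hP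
  have hPgood : ∀ G ∈ P, Good d H G := by
    intro G hG
    rcases mem_insert.1 hG with h | h
    · rw [h]; exact hF
    · exact hJ G h
  have hPass : ∀ G ∈ P, ∀ G' ∈ P, G ≠ G' → ¬ Associated G G' := by
    intro G hG G' hG' hne
    rcases mem_insert.1 hG with h | h
    · rcases mem_insert.1 hG' with h' | h'
      · exact absurd (h.trans h'.symm) hne
      · rw [h]; exact hFJ G' h'
    · rcases mem_insert.1 hG' with h' | h'
      · rw [h']; exact fun h2 => hFJ G h h2.symm
      · exact hJJ G h G' h' hne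
  have hres : ∀ z ∈ P.offDiag, res z.1 z.2 ≠ 0 := by
    intro z hz
    rw [mem_offDiag] at hz
    obtain ⟨h1, h2, h3⟩ := hz
    exact res_ne_zero (hPgood _ h1).1 (hPgood _ h2).1 (hPgood _ h1).2.1 (hPgood _ h2).2.1
      (hPass _ h1 _ h2 h3)
  set Λ : ℝ := Real.log (((2 * d).factorial : ℝ) * (H : ℝ) ^ (2 * d)) with hΛ
  have hHr : (1 : ℝ) ≤ H := by exact_mod_cast hH
  have hfac : (1 : ℝ) ≤ ((2 * d).factorial : ℝ) := by
    exact_mod_cast Nat.one_le_iff_ne_zero.2 (Nat.factorial_ne_zero _)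
  have hΛ0 : 0 ≤ Λ := by
    apply Real.log_nonneg
    calc (1 : ℝ) = 1 * 1 := by norm_num
      _ ≤ _ := mul_le_mul hfac (one_le_pow₀ hHr) (by norm_num) (by positivity)
  have hlogres : ∀ z ∈ P.offDiag, Real.log (res z.1 z.2).natAbs ≤ Λ := by
    intro z hz
    have hne := hres z hz
    rw [mem_offDiag] at hz
    have h1 := res_le (hPgood _ hz.1).2.2.1 (hPgood _ hz.2.1).2.2.1 hH (hPgood _ hz.1).2.2.2
      (hPgood _ hz.2.1).2.2.2
    have h2 : ((res z.1 z.2).natAbs : ℝ) ≤ ((2 * d).factorial : ℝ) * (H : ℝ) ^ (2 * d) := by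
      rw [Nat.cast_natAbs]
      exact_mod_cast h1
    apply Real.log_le_log _ h2
    exact_mod_cast Int.natAbs_pos.2 hne
  set FF : Finset ℕ := J.biUnion (fun G => prs (fz A G)) with hFF
  have hFFp : ∀ p ∈ FF, p.Prime := by
    intro p hp
    rw [hFF, mem_biUnion] at hp
    obtain ⟨x, _, hx⟩ := hp
    unfold prs at hx
    rw [mem_biUnion] at hx
    obtain ⟨a, _, ha⟩ := hx
    exact Nat.prime_of_mem_primeFactors ha
  have hWF : ∀ G ∈ J, W0 κ (fz A G) = ∑ q ∈ FF, (lev κ (fz A G) q : ℝ) * Real.log q := by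
    intro G hG
    exact W0_eq _ (fz_zero A G) FF hFFp (subset_biUnion_of_mem (fun G => prs (fz A G)) hG)
  have hq0 : ∀ q : ℕ, 0 ≤ Real.log q := fun q => Real.log_natCast_nonneg q
  -- the levels
  set tt : ℤ[X] → ℕ → ℕ := fun G q => (lev κ (fz A G) q + (d - 1)) / d with htt
  have htt1 : ∀ G q, lev κ (fz A G) q ≤ d * tt G q := by
    intro G q
    have h1 := Nat.div_add_mod (lev κ (fz A G) q + (d - 1)) d
    have h2 := Nat.mod_lt (lev κ (fz A G) q + (d - 1)) (by omega : d > 0)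
    have h3 : d * tt G q = d * ((lev κ (fz A G) q + (d - 1)) / d) := rfl
    omega
  have htt2 : ∀ G q, tt G q ≤ lev κ (fz A G) q := by
    intro G q
    have h3 : tt G q = (lev κ (fz A G) q + (d - 1)) / d := rfl
    rw [h3]
    rcases Nat.eq_zero_or_pos (lev κ (fz A G) q) with h0 | h0
    · rw [h0, Nat.zero_add]
      have : (d - 1) / d = 0 := Nat.div_eq_of_lt (by omega)
      omega
    · apply Nat.div_le_of_le_mul
      have h4 : lev κ (fz A G) q * 1 ≤ lev κ (fz A G) q * d := Nat.mul_le_mul_left _ hd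
      obtain ⟨x, hx⟩ : ∃ x, lev κ (fz A G) q = x + 1 := ⟨_, (Nat.succ_pred_eq_of_pos h0).symm⟩
      rw [hx]
      have h5 : d * (x + 1) = d * x + d := by ring
      have h6 : x ≤ d * x := Nat.le_mul_of_pos_left x (by omega)
      omega
  have htt3 : ∀ G q, 1 ≤ tt G q → d * (tt G q - 1) < lev κ (fz A G) q := by
    intro G q h
    have h1 : d * tt G q ≤ lev κ (fz A G) q + (d - 1) := Nat.mul_div_le _ _
    have h2 : d * (tt G q - 1) = d * tt G q - d := by rw [Nat.mul_sub, Nat.mul_one]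
    have h3 : d ≤ d * tt G q := Nat.le_mul_of_pos_right d h
    omega
  set mu : ℕ → ℕ := fun q => J.sup (fun G => tt G q - rsep P q) with hmu
  have hnot : ∀ q : ℕ, q.Prime → ∀ G ∈ P, ∀ G' ∈ P, G ≠ G' → ∀ l, rsep P q < l →
      ¬ (q : ℤ) ^ l ∣ res G G' := by
    intro q hq G hG G' hG' hne l hl hdvd
    have := Fact.mk hq
    have h1 := le_rsep hG hG' hne q
    rcases (padicValInt_dvd_iff (p := q) _ _).1 hdvd with h | h
    · exact hres (G, G') (mem_offDiag.2 ⟨hG, hG', hne⟩) h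
    · omega
  -- popular leading digits of the values of `F`
  have hch : ∀ q : ℕ, ∃ p : ℕ × ℤ, q ∈ FF → mu q ≠ 0 →
      ¬ (q : ℤ) ^ p.1 ∣ p.2 ∧ mu q ≤ p.1 - padicValInt q p.2 ∧
      1 / (2 * (d : ℝ) ^ 3) * κ * ((fz A F).card : ℝ) ≤
        (((fz A F).filter (fun b => (q : ℤ) ^ p.1 ∣ b - p.2)).card : ℝ) := by
    intro q
    by_cases hq : q ∈ FF
    swap
    · exact ⟨(0, 0), fun h => absurd h hq⟩
    by_cases hm : mu q = 0
    · exact ⟨(0, 0), fun _ h => absurd hm h⟩
    have hqp := hFFp q hq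
    have hJne : J.Nonempty := by
      rw [nonempty_iff_ne_empty]
      intro h0
      apply hm
      rw [hmu]
      simp only
      rw [h0, sup_empty]
      rfl
    obtain ⟨G, hG, hGe⟩ := exists_mem_eq_sup J hJne (fun G => tt G q - rsep P q)
    have hmuq : mu q = tt G q - rsep P q := hGe
    have hGP : G ∈ P := mem_insert_of_mem hG
    have hFP : F ∈ P := mem_insert_self _ _
    have hFG : F ≠ G := fun h => hFJ G hG (h ▸ Associated.refl _)
    have hgood := hJ G hG
    set t := tt G q with ht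
    set l := lev κ (fz A G) q with hl
    have htl : t ≤ l := htt2 G q
    have hst : rsep P q < t := by omega
    have hpts := pop_points hgood.2.1 hgood.2.2.1 hA hκ0.le hκ1 (le_refl l)
    set T : Finset ℤ := A.filter (fun a => (q : ℤ) ^ l ∣ G.eval a) with hT
    have hTne : T.Nonempty := by
      rw [nonempty_iff_ne_empty]
      intro h0
      rw [h0, card_empty, Nat.cast_zero, mul_zero] at hpts
      have : (0 : ℝ) < A.card := by exact_mod_cast card_pos.2 hAne
      have : 0 < κ * A.card := by positivity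
      linarith
    obtain ⟨r, hrT, hrc⟩ := exists_class (hgood.1.isPrimitive (by have := hgood.2.1; omega))
      hgood.2.2.1 hqp (l := l) (t := t) (htt3 G q (by omega)) hTne
      (fun a ha => (mem_filter.1 ha).2)
    have hrG : (q : ℤ) ^ l ∣ G.eval r := (mem_filter.1 hrT).2
    have hval : ∀ n, rsep P q < n → n ≤ l → ¬ (q : ℤ) ^ n ∣ F.eval r := by
      intro n hn hnl h
      exact hnot q hqp F hFP G hGP hFG n hn
        (dvd_res hF.2.1 h ((pow_dvd_pow _ hnl).trans hrG))
    refine ⟨(t, F.eval r), fun _ _ => ⟨hval t hst htl, ?_, ?_⟩⟩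
    · have h1 : padicValInt q (F.eval r) ≤ rsep P q := by
        by_contra hlt
        push Not at hlt
        apply hval (rsep P q + 1) (by omega) (by omega)
        have := Fact.mk hqp
        rw [padicValInt_dvd_iff]
        right
        exact hlt
      simp only
      omega
    · simp only
      have h1 := pop_values (A := A) hF.2.1 hF.2.2.1 (hval t hst htl)
        (T.filter (fun a => (q : ℤ) ^ t ∣ a - r))
        ((filter_subset _ _).trans (filter_subset _ _)) (fun a ha => (mem_filter.1 ha).2)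
      have h2 : (T.card : ℝ) ≤ d * ((T.filter (fun a => (q : ℤ) ^ t ∣ a - r)).card : ℝ) := by
        exact_mod_cast hrc
      have h3 : ((T.filter (fun a => (q : ℤ) ^ t ∣ a - r)).card : ℝ) ≤
          d * (((fz A F).filter (fun b => (q : ℤ) ^ t ∣ b - F.eval r)).card : ℝ) := by
        exact_mod_cast h1
      have h4 : ((fz A F).card : ℝ) ≤ A.card := by exact_mod_cast card_fz_le A F
      set x : ℝ := (((fz A F).filter (fun b => (q : ℤ) ^ t ∣ b - F.eval r)).card : ℝ) with hx
      have h5 : κ * (fz A F).card ≤ 2 * d * (d * (d * x)) := by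
        calc κ * (fz A F).card ≤ κ * A.card := mul_le_mul_of_nonneg_left h4 hκ0.le
          _ ≤ 2 * d * T.card := hpts
          _ ≤ 2 * d * (d * (d * x)) := by
              apply mul_le_mul_of_nonneg_left _ (by positivity)
              exact h2.trans (mul_le_mul_of_nonneg_left h3 hdr0.le)
      rw [mul_assoc, div_mul_eq_mul_div, one_mul, div_le_iff₀ (by positivity)]
      refine h5.trans (le_of_eq ?_)
      ring
  choose b hb using hch
  have hPop : Pop (1 / (2 * (d : ℝ) ^ 3) * κ) (fz A F) (FF.filter (fun q => mu q ≠ 0))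
      (fun q => (b q).1) (fun q => (b q).2) := by
    refine ⟨fun p hp => hFFp p (mem_filter.1 hp).1, fun p hp => ?_, fun p hp => ?_⟩
    · obtain ⟨h1, h2⟩ := mem_filter.1 hp
      exact (hb p h1 h2).1
    · obtain ⟨h1, h2⟩ := mem_filter.1 hp
      exact (hb p h1 h2).2.2
  have hV := hpop _ _ _ hPop
  have hmuV : ∑ q ∈ FF, (mu q : ℝ) * Real.log q ≤ V := by
    refine le_trans ?_ hV
    unfold W1
    rw [sum_filter]
    apply sum_le_sum
    intro q hq
    by_cases hm : mu q = 0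
    · simp [hm]
    · rw [if_pos hm]
      apply mul_le_mul_of_nonneg_right _ (hq0 q)
      exact_mod_cast (hb q hq hm).2.1
  -- at most `2 d / κ` polynomials are popular at each level
  have hone : ∀ q ∈ FF, κ * ∑ G ∈ J, ((tt G q - rsep P q : ℕ) : ℝ) ≤ 2 * d * mu q := by
    intro q hq
    have h1 : ∀ G ∈ J, ((tt G q - rsep P q : ℕ) : ℝ) =
        ∑ l ∈ Ioc (rsep P q) (rsep P q + mu q), if l ≤ tt G q then (1 : ℝ) else 0 := by
      intro G hG
      rw [← sum_filter, sum_const, nsmul_one]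
      congr 1
      have h2 : tt G q - rsep P q ≤ mu q :=
        le_sup (f := fun G => tt G q - rsep P q) hG
      have h3 : (Ioc (rsep P q) (rsep P q + mu q)).filter (fun l => l ≤ tt G q) =
          Ioc (rsep P q) (tt G q) := by
        ext l
        simp only [mem_filter, mem_Ioc]
        omega
      rw [h3, Nat.card_Ioc]
    rw [sum_congr rfl h1, sum_comm, mul_sum]
    have h4 : ∀ l ∈ Ioc (rsep P q) (rsep P q + mu q),
        κ * ∑ G ∈ J, (if l ≤ tt G q then (1 : ℝ) else 0) ≤ 2 * d := by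
      intro l hl
      rw [← sum_filter, sum_const, nsmul_one]
      apply card_pop_poly (q := q) hAne (l := l)
      · intro G hG
        exact (hJ G (mem_filter.1 hG).1).2.1
      · intro G hG G' hG' hne
        exact hnot q (hFFp q hq) G (mem_insert_of_mem (mem_filter.1 hG).1) G'
          (mem_insert_of_mem (mem_filter.1 hG').1) hne l (mem_Ioc.1 hl).1
      · intro G hG
        have hGJ := (mem_filter.1 hG).1
        exact pop_points (hJ G hGJ).2.1 (hJ G hGJ).2.2.1 hA hκ0.le hκ1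
          ((mem_filter.1 hG).2.trans (htt2 G q))
    refine (sum_le_sum h4).trans ?_
    rw [sum_const, Nat.card_Ioc, nsmul_eq_mul]
    apply le_of_eq
    rw [mul_comm]
    congr 2
    omega
  have hall : κ * ∑ G ∈ J, ∑ q ∈ FF, ((tt G q - rsep P q : ℕ) : ℝ) * Real.log q ≤
      2 * d * V := by
    rw [sum_comm, mul_sum]
    refine le_trans (sum_le_sum (g := fun q => 2 * (d : ℝ) * ((mu q : ℝ) * Real.log q))
      fun q hq => ?_) ?_
    · rw [← sum_mul, ← mul_assoc, ← mul_assoc]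
      exact mul_le_mul_of_nonneg_right (hone q hq) (hq0 q)
    · rw [← mul_sum]
      exact mul_le_mul_of_nonneg_left hmuV (by positivity)
  have hsep : ∑ q ∈ FF, (rsep P q : ℝ) * Real.log q ≤ ((J.card : ℝ) + 1) ^ 2 * Λ := by
    refine (sum_rsep_le P FF hFFp hres hlogres hΛ0).trans ?_
    apply mul_le_mul_of_nonneg_right _ hΛ0
    apply pow_le_pow_left₀ (Nat.cast_nonneg _)
    exact_mod_cast card_insert_le F J
  have hW : ∀ G ∈ J, W0 κ (fz A G) ≤
      d * ∑ q ∈ FF, ((tt G q - rsep P q : ℕ) : ℝ) * Real.log q +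
        d * (((J.card : ℝ) + 1) ^ 2 * Λ) := by
    intro G hG
    rw [hWF G hG]
    have h1 : ∑ q ∈ FF, (lev κ (fz A G) q : ℝ) * Real.log q ≤
        ∑ q ∈ FF, (d * (((tt G q - rsep P q : ℕ) : ℝ) * Real.log q) +
          d * ((rsep P q : ℝ) * Real.log q)) := by
      apply sum_le_sum
      intro q _
      have h2 : lev κ (fz A G) q ≤ d * ((tt G q - rsep P q) + rsep P q) :=
        (htt1 G q).trans (Nat.mul_le_mul_left _ (by omega))
      have h3 : (lev κ (fz A G) q : ℝ) ≤
          d * (((tt G q - rsep P q : ℕ) : ℝ) + rsep P q) := by exact_mod_cast h2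
      have h4 := mul_le_mul_of_nonneg_right h3 (hq0 q)
      refine h4.trans (le_of_eq ?_)
      ring
    refine h1.trans ?_
    rw [sum_add_distrib, ← mul_sum, ← mul_sum]
    have h5 := mul_le_mul_of_nonneg_left hsep hdr0.le
    linarith
  refine (sum_le_sum hW).trans ?_
  rw [sum_add_distrib, ← mul_sum, sum_const, nsmul_eq_mul]
  have h6 : ∑ G ∈ J, ∑ q ∈ FF, ((tt G q - rsep P q : ℕ) : ℝ) * Real.log q ≤ 2 * d * V / κ := by
    rw [le_div_iff₀ hκ0, mul_comm]
    exact hall
  have h7 := mul_le_mul_of_nonneg_left h6 hdr0.le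
  have h8 : (d : ℝ) * (2 * d * V / κ) = 2 * (d : ℝ) ^ 2 / κ * V := by ring
  have h9 : (J.card : ℝ) * (d * (((J.card : ℝ) + 1) ^ 2 * Λ)) =
      d * J.card * (((J.card : ℝ) + 1) ^ 2 * Λ) := by ring
  linarith

end Pool.Agent.Helper88.NZ
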