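import Pool.Agent.Helper88.NZ.PolyB

set_option autoImplicit false

/-!
MP_120218_co, project TR: only few of several polynomials have high popular valuations at a prime.
-/

open Finset Polynomial

namespace Pool.Agent.Helper88.NZ

open Pool.Agent.Helper26.TR

theorem log_res_le {d : ℕ} {H : ℤ} (hH : 1 ≤ H) {F G : ℤ[X]} (hF : Good d H F) (hG : Good d H G)
    (hFG : ¬ Associated F G) : Real.log (res F G).natAbs ≤
      Real.log (((2 * d).factorial : ℝ) * (H : ℝ) ^ (2 * d)) := by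
  have hne := res_ne_zero hF.1 hG.1 hF.2.1 hG.2.1 hFG
  have h1 := res_le hF.2.2.1 hG.2.2.1 hH hF.2.2.2 hG.2.2.2
  have h2 : ((res F G).natAbs : ℝ) ≤ ((2 * d).factorial : ℝ) * (H : ℝ) ^ (2 * d) := by
    rw [Nat.cast_natAbs]
    exact_mod_cast h1
  apply Real.log_le_log _ h2
  exact_mod_cast Int.natAbs_pos.2 hne

/-- the weight of the separation of a family of polynomials -/
theorem sum_rsep {d : ℕ} {H : ℤ} (hH : 1 ≤ H) (J : Finset ℤ[X]) (hJ : ∀ G ∈ J, Good d H G)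
    (hJJ : ∀ G ∈ J, ∀ G' ∈ J, G ≠ G' → ¬ Associated G G') (F : Finset ℕ)
    (hF : ∀ q ∈ F, q.Prime) : ∑ q ∈ F, (rsep J q : ℝ) * Real.log q ≤ (J.card : ℝ) ^ 2 *
      Real.log (((2 * d).factorial : ℝ) * (H : ℝ) ^ (2 * d)) := by
  apply sum_rsep_le J F hF
  · intro z hz
    rw [mem_offDiag] at hz
    exact res_ne_zero (hJ _ hz.1).1 (hJ _ hz.2.1).1 (hJ _ hz.1).2.1 (hJ _ hz.2.1).2.1
      (hJJ _ hz.1 _ hz.2.1 hz.2.2)
  · intro z hz
    rw [mem_offDiag] at hz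
    exact log_res_le hH (hJ _ hz.1) (hJ _ hz.2.1) (hJJ _ hz.1 _ hz.2.1 hz.2.2)
  · apply Real.log_nonneg
    have hHr : (1 : ℝ) ≤ H := by exact_mod_cast hH
    have hfac : (1 : ℝ) ≤ ((2 * d).factorial : ℝ) := by
      exact_mod_cast Nat.one_le_iff_ne_zero.2 (Nat.factorial_ne_zero _)
    calc (1 : ℝ) = 1 * 1 := by norm_num
      _ ≤ _ := mul_le_mul hfac (one_le_pow₀ hHr) (by norm_num) (by positivity)

/-- at most `2 d / κ` of the polynomials have a popular valuation above the separation -/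
theorem few_popular {A : Finset ℤ} {d : ℕ} (hd : 1 ≤ d) (hA : 2 * d ≤ A.card) {κ : ℝ}
    (hκ0 : 0 < κ) (hκ1 : κ ≤ 1) (J : Finset ℤ[X]) {H : ℤ} (hJ : ∀ G ∈ J, Good d H G)
    (hJJ : ∀ G ∈ J, ∀ G' ∈ J, G ≠ G' → ¬ Associated G G') {q : ℕ} (hq : q.Prime) :
    κ * ((J.filter (fun G => rsep J q < lev κ (fz A G) q)).card : ℝ) ≤ 2 * d := by
  classical
  have hAne : A.Nonempty := card_pos.1 (by omega)
  apply card_pop_poly (q := q) hAne (l := rsep J q + 1)
  · intro G hG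
    exact (hJ G (mem_filter.1 hG).1).2.1
  · intro G hG G' hG' hne hdvd
    have hGJ := (mem_filter.1 hG).1
    have hGJ' := (mem_filter.1 hG').1
    have := Fact.mk hq
    have h1 := le_rsep hGJ hGJ' hne q
    rcases (padicValInt_dvd_iff (p := q) _ _).1 hdvd with h | h
    · exact res_ne_zero (hJ _ hGJ).1 (hJ _ hGJ').1 (hJ _ hGJ).2.1 (hJ _ hGJ').2.1
        (hJJ _ hGJ _ hGJ' hne) h
    · omega
  · intro G hG
    have hGJ := (mem_filter.1 hG).1
    exact pop_points (hJ G hGJ).2.1 (hJ G hGJ).2.2.1 hA hκ0.le hκ1 (mem_filter.1 hG).2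

end Pool.Agent.Helper88.NZ
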