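import Pool.Agent.Helper88.NZ.PolyD
import Pool.Agent.Helper34.TR.NZG

set_option autoImplicit false

/-!
MP_120218_co, project TR: `TRPoly` from `NZG`.
-/

open Finset Polynomial

namespace Pool.Agent.Helper88.NZ

open Pool.Agent.Helper26.TR

theorem mixSet_snoc {k : ℕ} (A : Fin k → Finset ℤ) :
    mixSet (Fin.snoc A {1} : Fin (k + 1) → Finset ℤ) = mixSet A := by
  classical
  unfold mixSet
  ext z
  rw [mem_image, mem_image]
  constructor
  · rintro ⟨g, hg, rfl⟩
    rw [Fintype.mem_piFinset] at hg
    refine ⟨fun i => g i.castSucc, ?_, ?_⟩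
    · rw [Fintype.mem_piFinset]
      intro i
      have := hg i.castSucc
      rwa [Fin.snoc_castSucc] at this
    · rw [Fin.prod_univ_castSucc]
      have h := hg (Fin.last k)
      rw [Fin.snoc_last, mem_singleton] at h
      rw [h, mul_one]
  · rintro ⟨g, hg, rfl⟩
    rw [Fintype.mem_piFinset] at hg
    refine ⟨Fin.snoc g 1, ?_, ?_⟩
    · rw [Fintype.mem_piFinset]
      intro i
      refine Fin.lastCases ?_ (fun j => ?_) i
      · rw [Fin.snoc_last, Fin.snoc_last, mem_singleton]
      · rw [Fin.snoc_castSucc, Fin.snoc_castSucc]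
        exact hg j
    · rw [Fin.prod_univ_castSucc, Fin.snoc_last, mul_one]
      exact prod_congr rfl fun i _ => by rw [Fin.snoc_castSucc]

theorem nzMixT_of_nzG (h : Pool.Agent.Helper34.TR.NZG) : NZMixT := by
  classical
  intro k ε hε θ hθ0 hθ1
  obtain ⟨κ', C, c, ζ, hκ, hC, hc, hζ, hmain⟩ := h k ε θ hε hθ0 hθ1
  refine ⟨fun l => κ' l.castSucc, C, min c (1 / 16 ^ k), fun l => hκ _, hC,
    lt_min hc (by positivity), ?_⟩
  intro N A hAne hA0 hAN hmix
  have hprodpos : (0 : ℝ) < ∏ l, ((A l).card : ℝ) :=
    prod_pos fun l _ => by exact_mod_cast card_pos.2 (hAne l)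
  have hmix1 : (1 : ℝ) ≤ ((mixSet A).card : ℝ) := by
    exact_mod_cast card_pos.2 (mixSet_nonempty hAne)
  have hN1 : 1 ≤ N := by
    by_contra h
    have hN0 : N = 0 := by omega
    subst hN0
    rw [Nat.cast_zero, Real.zero_rpow (by linarith)] at hmix
    linarith [hmix1]
  have hNpos : (0 : ℝ) < N := by exact_mod_cast hN1
  have hNε : (N : ℝ) ^ (-ε) ≤ 1 := by
    apply Real.rpow_le_one_of_one_le_of_nonpos (by exact_mod_cast hN1) (by linarith)
  have hN16 : 16 ≤ N := by
    by_contra hlt
    push Not at hlt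
    have h1 : ∏ l, ((A l).card : ℝ) ≤ (16 : ℝ) ^ k := by
      calc ∏ l, ((A l).card : ℝ) ≤ ∏ _l : Fin k, (16 : ℝ) := by
            apply prod_le_prod
            · intro l _; positivity
            · intro l _
              have := hAN l
              exact_mod_cast this.trans hlt.le
        _ = (16 : ℝ) ^ k := by rw [prod_const, card_univ, Fintype.card_fin]
    have h2 : min c (1 / 16 ^ k) * (N : ℝ) ^ (-ε) * ∏ l, ((A l).card : ℝ) ≤ 1 := by
      calc min c (1 / 16 ^ k) * (N : ℝ) ^ (-ε) * ∏ l, ((A l).card : ℝ)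
          ≤ (1 / (16 : ℝ) ^ k) * 1 * (16 : ℝ) ^ k := by
            apply mul_le_mul _ h1 hprodpos.le (by positivity)
            exact mul_le_mul (min_le_right _ _) hNε (by positivity) (by positivity)
        _ = 1 := by field_simp
    linarith
  have hL1 : 1 < Real.log N := by
    rw [Real.lt_log_iff_exp_lt hNpos]
    have h3 : Real.exp 1 < 2.7182818286 := Real.exp_one_lt_d9
    have h4 : (16 : ℝ) ≤ N := by exact_mod_cast hN16
    linarith
  have hLL : 0 < Real.log N * Real.log (Real.log N) :=
    mul_pos (by linarith) (Real.log_pos hL1)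
  set A' : Fin (k + 1) → Finset ℤ := Fin.snoc A {1} with hA'
  have hA'c : ∀ l : Fin k, A' l.castSucc = A l := fun l => by rw [hA', Fin.snoc_castSucc]
  have hA'l : A' (Fin.last k) = {1} := by rw [hA', Fin.snoc_last]
  have hprod : ∏ l, ((A' l).card : ℝ) = ∏ l, ((A l).card : ℝ) := by
    rw [Fin.prod_univ_castSucc, hA'l, card_singleton, Nat.cast_one, mul_one]
    exact prod_congr rfl fun l _ => by rw [hA'c]
  have key := hmain N A' (by
      intro l
      refine Fin.lastCases ?_ (fun j => ?_) l
      · rw [hA'l]; exact singleton_nonempty _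
      · rw [hA'c]; exact hAne j) (by
      intro l
      refine Fin.lastCases ?_ (fun j => ?_) l
      · rw [hA'l]; simp
      · rw [hA'c]; exact hA0 j) (by
      intro l
      refine Fin.lastCases ?_ (fun j => ?_) l
      · rw [hA'l, card_singleton]; exact hN1
      · rw [hA'c]; exact hAN j) (by
      rw [mixSet_snoc, hprod]
      refine hmix.trans_le ?_
      apply mul_le_mul_of_nonneg_right _ hprodpos.le
      exact mul_le_mul_of_nonneg_right (min_le_left _ _) (by positivity))
  rcases key with ⟨l, hl0, hlk, hl1, hl2⟩ | h2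
  · obtain ⟨j, rfl⟩ : ∃ j : Fin k, l = j.castSucc := ⟨⟨l, hlk⟩, rfl⟩
    have hW : W0b (κ' j.castSucc) A' j.castSucc = W0b (κ' j.castSucc) A j := by
      unfold W0b
      rw [sum_filter, sum_filter, Fin.sum_univ_castSucc]
      have h3 : ¬ (Fin.last k < j.castSucc) := not_lt.2 (Fin.le_last _)
      rw [if_neg h3, add_zero]
      apply sum_congr rfl
      intro i _
      rw [hA'c]
      by_cases hij : i < j
      · rw [if_pos hij, if_pos (Fin.castSucc_lt_castSucc_iff.2 hij)]
      · rw [if_neg hij, if_neg (fun h => hij (Fin.castSucc_lt_castSucc_iff.1 h))]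
    rw [hA'c, hW] at hl1
    rw [hW] at hl2
    refine ⟨j, hl0, hl1, le_trans ?_ hl2⟩
    exact mul_le_mul_of_nonneg_right (min_le_left _ _) hLL.le
  · exfalso
    have h3 := h2 ((range (bd A')).filter Nat.Prime) (fun q hq => (mem_filter.1 hq).2) (by
      have h4 : Wt (bd A') (fun q => if q ∈ (range (bd A')).filter Nat.Prime then 0 else
          lamS κ' A' (Fin.last k) q) = 0 := by
        unfold Wt
        apply sum_eq_zero
        intro q hq
        simp only [if_pos hq, Nat.cast_zero, zero_mul]
      rw [h4]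
      exact mul_pos hc hLL)
    rw [hA'l, image_singleton, card_singleton, card_singleton, Nat.cast_one, mul_one] at h3
    have h5 : (N : ℝ) ^ (-ζ) < 1 := by
      apply Real.rpow_lt_one_of_one_lt_of_neg
      · have : 1 < N := by omega
        exact_mod_cast this
      · linarith
    linarith

/-- **All but boundedly many irreducible polynomials.** -/
theorem trPoly : TRPoly := polynomials (nzMixT_of_nzG Pool.Agent.Helper34.TR.nzG)

end Pool.Agent.Helper88.NZ
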