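import Pool.Agent.Helper88.NZ.Transl
import Pool.Agent.Helper26.TR.Defs

set_option autoImplicit false

/-!
MP_120218_co, project TR: the statement about translates from the structure theorem for one set.
-/

open Finset

namespace Pool.Agent.Helper88.NZ

open Pool.Agent.Helper26.TR

/-- the translate of a set -/
def sh (A : Finset ℤ) (x : ℤ) : Finset ℤ := A.image (fun a => a + x)

theorem card_sh (A : Finset ℤ) (x : ℤ) : (sh A x).card = A.card :=
  card_image_of_injective _ (fun a b h => by simpa using h)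

theorem card_filter_sh (A : Finset ℤ) (x : ℤ) (P : ℤ → Prop) [DecidablePred P] :
    ((sh A x).filter P).card = (A.filter (fun a => P (a + x))).card := by
  classical
  unfold sh
  rw [filter_image, card_image_of_injective _ (fun a b h => by simpa using h)]

theorem dvd_lev {κ : ℝ} (hκ1 : κ ≤ 1) (B : Finset ℤ) (p : ℕ) {l : ℕ} (hl : l ≤ lev κ B p) :
    κ * (B.card : ℝ) ≤ ((B.filter (fun a => (p : ℤ) ^ l ∣ a)).card : ℝ) := by
  classical
  have h0 : κ * (B.card : ℝ) ≤ (cdiv B ((p : ℤ) ^ 0) : ℝ) := by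
    have : cdiv B ((p : ℤ) ^ 0) = B.card := by
      unfold cdiv
      rw [pow_zero, filter_true_of_mem]
      intro a _
      exact one_dvd a
    rw [this]
    have : (0 : ℝ) ≤ B.card := Nat.cast_nonneg _
    nlinarith
  have h1 : κ * (B.card : ℝ) ≤ (cdiv B ((p : ℤ) ^ (lev κ B p)) : ℝ) :=
    Nat.findGreatest_spec (P := fun l => κ * (B.card : ℝ) ≤ (cdiv B ((p : ℤ) ^ l) : ℝ))
      (Nat.zero_le _) h0
  refine h1.trans ?_
  unfold cdiv
  apply Nat.cast_le.2
  apply card_le_card
  intro a ha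
  rw [mem_filter] at ha ⊢
  exact ⟨ha.1, (pow_dvd_pow _ hl).trans ha.2⟩

theorem lev_eq_zero {κ : ℝ} (B : Finset ℤ) (hB : (0 : ℤ) ∉ B) {p : ℕ} (hp : p.Prime)
    (h : p ∉ prs B) : lev κ B p = 0 := by
  classical
  have h1 : mval B p = 0 := by
    unfold mval
    rw [← Nat.bot_eq_zero, Finset.sup_eq_bot_iff]
    intro a ha
    rw [Nat.bot_eq_zero]
    by_contra hne
    apply h
    unfold prs
    rw [mem_biUnion]
    refine ⟨a, ha, ?_⟩
    rw [Nat.mem_primeFactors]
    have ha0 : a ≠ 0 := fun h0 => hB (h0 ▸ ha)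
    refine ⟨hp, ?_, Int.natAbs_ne_zero.2 ha0⟩
    exact dvd_of_one_le_padicValNat (Nat.one_le_iff_ne_zero.2 hne)
  unfold lev
  rw [h1]
  exact Nat.findGreatest_zero

theorem W0_eq {κ : ℝ} (B : Finset ℤ) (hB : (0 : ℤ) ∉ B) (F : Finset ℕ)
    (hF : ∀ p ∈ F, p.Prime) (h : prs B ⊆ F) :
    W0 κ B = ∑ p ∈ F, (lev κ B p : ℝ) * Real.log p := by
  unfold W0
  apply sum_subset h
  intro p hp hpB
  rw [lev_eq_zero B hB (hF p hp) hpB, Nat.cast_zero, zero_mul]

/-- the combinatorial core for translates, in terms of `W0` and `Pop` -/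
theorem core_lev {A J : Finset ℤ} (hA : A.Nonempty) (h0 : ∀ x ∈ J, (0 : ℤ) ∉ sh A x) {κ : ℝ}
    (hκ0 : 0 < κ) (hκ1 : κ ≤ 1) {C : ℝ} (hC0 : 0 ≤ C)
    (hNZ : ∀ x ∈ J, ∀ (T : Finset ℕ) (e : ℕ → ℕ) (β : ℕ → ℤ), Pop κ (sh A x) T e β →
      W1 T e β ≤ C * (W0 κ (sh A x) + 1))
    {S : ℝ} (hS : ∀ x ∈ J, ∀ y ∈ J, x ≠ y → Real.log (x - y).natAbs ≤ S) (hS0 : 0 ≤ S)
    (hW : ∀ x ∈ J, 2 * ((J.card : ℝ) ^ 2 * S) ≤ W0 κ (sh A x))
    (hW1 : ∀ x ∈ J, 1 ≤ W0 κ (sh A x)) :
    (J.card : ℝ) ≤ 1 + 4 * C / κ := by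
  classical
  set F : Finset ℕ := J.biUnion (fun x => prs (sh A x)) with hFdef
  have hF : ∀ p ∈ F, p.Prime := by
    intro p hp
    rw [hFdef, mem_biUnion] at hp
    obtain ⟨x, _, hx⟩ := hp
    unfold prs at hx
    rw [mem_biUnion] at hx
    obtain ⟨a, _, ha⟩ := hx
    exact Nat.prime_of_mem_primeFactors ha
  have hWF : ∀ x ∈ J, W0 κ (sh A x) = ∑ q ∈ F, (lev κ (sh A x) q : ℝ) * Real.log q := by
    intro x hx
    exact W0_eq _ (h0 x hx) F hF (subset_biUnion_of_mem (fun x => prs (sh A x)) hx)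
  have key := transl_core (A := A) (J := J) hA hκ0 F hF (fun x q => lev κ (sh A x) q)
    (fun x hx q _ l hl => by
      have h1 := dvd_lev hκ1 (sh A x) q hl
      rw [card_sh, card_filter_sh] at h1
      exact h1)
    (C := 2 * C) (by positivity)
    (fun x hx mu hmu => by
      have hmu' : ∀ q : ℕ, ∃ b : ℤ, q ∈ F → mu q ≠ 0 → b ≠ 0 ∧ κ * A.card ≤
          ((A.filter (fun a => (q : ℤ) ^ (padicValInt q b + mu q) ∣ (a + x) - b)).card : ℝ) := by
        intro q
        by_cases hq : q ∈ F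
        · by_cases hm : mu q = 0
          · exact ⟨0, fun _ h => absurd hm h⟩
          · obtain ⟨b, hb⟩ := hmu q hq hm
            exact ⟨b, fun _ _ => hb⟩
        · exact ⟨0, fun h => absurd h hq⟩
      choose b hb using hmu'
      have hpop : Pop κ (sh A x) (F.filter (fun q => mu q ≠ 0))
          (fun q => padicValInt q (b q) + mu q) b := by
        refine ⟨fun p hp => hF p (mem_filter.1 hp).1, ?_, ?_⟩
        · intro p hp hdvd
          obtain ⟨hpF, hpm⟩ := mem_filter.1 hp
          have := Fact.mk (hF p hpF)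
          rcases (padicValInt_dvd_iff (p := p) _ _).1 hdvd with h | h
          · exact (hb p hpF hpm).1 h
          · have h' : padicValInt p (b p) + mu p ≤ padicValInt p (b p) := h
            omega
        · intro p hp
          obtain ⟨hpF, hpm⟩ := mem_filter.1 hp
          rw [card_sh, card_filter_sh]
          exact (hb p hpF hpm).2
      have h1 := hNZ x hx _ _ _ hpop
      have h2 : W1 (F.filter (fun q => mu q ≠ 0)) (fun q => padicValInt q (b q) + mu q) b =
          ∑ q ∈ F, (mu q : ℝ) * Real.log q := by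
        unfold W1
        rw [sum_filter]
        apply sum_congr rfl
        intro q _
        by_cases hm : mu q = 0
        · simp [hm]
        · rw [if_pos hm, Nat.add_sub_cancel_left]
      rw [h2] at h1
      refine h1.trans ?_
      rw [← hWF x hx]
      have := hW1 x hx
      nlinarith)
    hS hS0 (fun x hx => by rw [← hWF x hx]; exact hW x hx)
    (fun x hx => by rw [← hWF x hx]; linarith [hW1 x hx])
  refine key.trans (le_of_eq ?_)
  ring

/-- `log log` of half of a large number -/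
theorem half_log {N : ℝ} (hN : Real.exp 16 ≤ N) {M : ℝ} (hM : N / 2 ≤ M) :
    1 / 4 * (Real.log N * Real.log (Real.log N)) ≤ Real.log M * Real.log (Real.log M) ∧
      1 ≤ Real.log (Real.log N) ∧ 16 ≤ Real.log N := by
  have hNpos : 0 < N := lt_of_lt_of_le (Real.exp_pos _) hN
  have hL : 16 ≤ Real.log N := by rwa [Real.le_log_iff_exp_le hNpos]
  have h2 : Real.log 2 < 0.6931471808 := Real.log_two_lt_d9
  have h2' : 0.6931471803 < Real.log 2 := Real.log_two_gt_d9
  have hMpos : 0 < M := lt_of_lt_of_le (by positivity) hM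
  have h3 : Real.log N - Real.log 2 ≤ Real.log M := by
    rw [← Real.log_div hNpos.ne' (by norm_num)]
    exact Real.log_le_log (by positivity) hM
  have h4 : Real.log N / 2 ≤ Real.log M := by linarith
  have h16 : Real.log 16 = 4 * Real.log 2 := by
    rw [show (16 : ℝ) = 2 ^ 4 by norm_num, Real.log_pow]
    norm_num
  have hLL : 4 * Real.log 2 ≤ Real.log (Real.log N) := by
    rw [← h16]
    exact Real.log_le_log (by norm_num) hL
  have h5 : Real.log (Real.log N) - Real.log 2 ≤ Real.log (Real.log M) := by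
    rw [← Real.log_div (by positivity) (by norm_num)]
    exact Real.log_le_log (by positivity) h4
  have h6 : Real.log (Real.log N) / 2 ≤ Real.log (Real.log M) := by linarith
  refine ⟨?_, by linarith, hL⟩
  have h7 : (Real.log N / 2) * (Real.log (Real.log N) / 2) ≤
      Real.log M * Real.log (Real.log M) := by
    apply mul_le_mul h4 h6 <;> linarith
  linarith

theorem prodSet_nonempty {k : ℕ} {A : Finset ℤ} (hA : A.Nonempty) : (prodSet k A).Nonempty := by
  classical
  obtain ⟨a, ha⟩ := hA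
  unfold prodSet
  exact ⟨_, mem_image_of_mem _ (Fintype.mem_piFinset.2 (fun _ => ha) :
      (fun _ : Fin k => a) ∈ Fintype.piFinset (fun _ : Fin k => A))⟩

theorem prodSet_mono {k : ℕ} {A B : Finset ℤ} (h : A ⊆ B) : prodSet k A ⊆ prodSet k B := by
  classical
  unfold prodSet
  exact image_subset_image (Fintype.piFinset_subset _ _ fun _ => h)

/-- **From the structure theorem to the theorem on translates.** -/
theorem translates (hNZ : NZStatement) (hWL : WeightLower) : TRStatement := by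
  classical
  intro k hk ε hε
  set ε' : ℝ := min ε 1 with hε'
  have hε'0 : 0 < ε' := lt_min hε one_pos
  have hε'1 : ε' ≤ 1 := min_le_right _ _
  have hk1 : (1 : ℝ) ≤ k := by exact_mod_cast hk
  obtain ⟨κ₀, c₂, hκ₀, hc₂, hwl⟩ := hWL k hk ε' hε'0
  obtain ⟨S, C, c₁, hS, hC, hc₁, hnz⟩ := hNZ k hk ε' hε'0 (min κ₀ 1) (lt_min hκ₀ one_pos)
  -- the number of exceptions
  obtain ⟨m, hm⟩ := exists_nat_ge (∑ κ ∈ S, (1 + 4 * C / κ))
  -- the threshold
  set L₀ : ℝ := max 16 (16 / c₂ + 2 * Real.log (2 * (m + 1))) with hL₀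
  set c : ℝ := min (min (c₁ / 2 ^ k) (c₂ / 2 ^ k))
    (min (c₂ / (8 * ((m : ℝ) + 1) ^ 2)) (Real.exp (-(k * L₀)))) with hc
  have hc0 : 0 < c := by
    rw [hc]
    apply lt_min (lt_min _ _) (lt_min _ _) <;> positivity
  have hcc₁ : c ≤ c₁ / 2 ^ k := (min_le_left _ _).trans (min_le_left _ _)
  have hcc₂ : c ≤ c₂ / 2 ^ k := (min_le_left _ _).trans (min_le_right _ _)
  have hcm : c ≤ c₂ / (8 * ((m : ℝ) + 1) ^ 2) := (min_le_right _ _).trans (min_le_left _ _)
  have hce : c ≤ Real.exp (-(k * L₀)) := (min_le_right _ _).trans (min_le_right _ _)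
  clear_value c
  refine ⟨m, c, hc0, ?_⟩
  intro A hA X hX hXsep
  have hN1 : (1 : ℝ) ≤ A.card := by exact_mod_cast card_pos.2 hA
  have hNpos : (0 : ℝ) < A.card := by linarith
  set N : ℝ := (A.card : ℝ) with hN
  have hXne : X.Nonempty := card_pos.1 (by omega)
  by_contra hcon
  push Not at hcon
  -- small `N`
  have hL0 : L₀ < Real.log N := by
    by_contra hle
    push Not at hle
    obtain ⟨x, hx⟩ := hXne
    have h1 := hcon x hx
    have h2 : (1 : ℝ) ≤ ((prodSet k (A.image (fun a => a + x))).card : ℝ) := by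
      exact_mod_cast card_pos.2 (prodSet_nonempty (hA.image _))
    have h3 : c * N ^ ((k : ℝ) - ε) ≤ 1 := by
      have hL0' : 0 ≤ Real.log N := Real.log_nonneg hN1
      calc c * N ^ ((k : ℝ) - ε) ≤ Real.exp (-(k * L₀)) * N ^ (k : ℝ) := by
            apply mul_le_mul hce _ (by positivity) (Real.exp_pos _).le
            exact Real.rpow_le_rpow_of_exponent_le hN1 (by linarith)
        _ = Real.exp (k * (Real.log N - L₀)) := by
            rw [Real.rpow_def_of_pos hNpos, ← Real.exp_add]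
            congr 1
            ring
        _ ≤ Real.exp 0 := by
            apply Real.exp_le_exp.2
            have : Real.log N - L₀ ≤ 0 := by linarith
            nlinarith
        _ = 1 := Real.exp_zero
    linarith
  have hL16 : 16 ≤ Real.log N := (le_max_left _ _).trans hL0.le
  have hL2 : 16 / c₂ + 2 * Real.log (2 * (m + 1)) ≤ Real.log N := (le_max_right _ _).trans hL0.le
  have hNexp : Real.exp 16 ≤ N := by rwa [← Real.le_log_iff_exp_le hNpos]
  have hlogm : 0 ≤ Real.log (2 * ((m : ℝ) + 1)) := by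
    apply Real.log_nonneg
    have : (0 : ℝ) ≤ m := Nat.cast_nonneg m
    linarith
  have hNm : 2 * ((m : ℝ) + 1) ≤ N := by
    rw [← Real.log_le_log_iff (by positivity) hNpos]
    have : 0 < 16 / c₂ := by positivity
    linarith
  -- choose `m + 1` translates
  obtain ⟨X', hX'X, hX'c⟩ := exists_subset_card_eq (s := X) (n := m + 1) (by omega)
  set A₀ : Finset ℤ := A.filter (fun a => ∀ x ∈ X', a + x ≠ 0) with hA₀
  have hA₀A : A₀ ⊆ A := filter_subset _ _
  have hA₀c : N / 2 ≤ (A₀.card : ℝ) := by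
    have h1 : A ⊆ A₀ ∪ X'.image (fun x => -x) := by
      intro a ha
      rw [mem_union]
      by_cases h : ∀ x ∈ X', a + x ≠ 0
      · left
        rw [hA₀, mem_filter]
        exact ⟨ha, h⟩
      · right
        push Not at h
        obtain ⟨x, hx, hax⟩ := h
        rw [mem_image]
        exact ⟨x, hx, by omega⟩
    have h2 : A.card ≤ A₀.card + (m + 1) := by
      refine (card_le_card h1).trans ((card_union_le _ _).trans ?_)
      have := card_image_le (s := X') (f := fun x => -x)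
      omega
    have h3 : N ≤ (A₀.card : ℝ) + (m + 1) := by
      rw [hN]
      exact_mod_cast h2
    linarith
  have hA₀pos : (0 : ℝ) < A₀.card := lt_of_lt_of_le (by positivity) hA₀c
  have hA₀ne : A₀.Nonempty := card_pos.1 (by exact_mod_cast hA₀pos)
  have hA₀1 : (1 : ℝ) ≤ A₀.card := by exact_mod_cast card_pos.2 hA₀ne
  have h0 : ∀ x ∈ X', (0 : ℤ) ∉ sh A₀ x := by
    intro x hx h
    unfold sh at h
    obtain ⟨a, ha, hax⟩ := mem_image.1 h
    rw [hA₀, mem_filter] at ha
    exact ha.2 x hx hax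
  have hNA₀ : N ^ ((k : ℝ) - ε) ≤ 2 ^ k * (A₀.card : ℝ) ^ ((k : ℝ) - ε') := by
    have hke : 0 ≤ (k : ℝ) - ε' := by linarith
    calc N ^ ((k : ℝ) - ε) ≤ N ^ ((k : ℝ) - ε') := by
          apply Real.rpow_le_rpow_of_exponent_le hN1
          have : ε' ≤ ε := min_le_left _ _
          linarith
      _ ≤ (2 * (A₀.card : ℝ)) ^ ((k : ℝ) - ε') :=
          Real.rpow_le_rpow hNpos.le (by linarith) hke
      _ = 2 ^ ((k : ℝ) - ε') * (A₀.card : ℝ) ^ ((k : ℝ) - ε') :=
          Real.mul_rpow (by norm_num) hA₀pos.le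
      _ ≤ 2 ^ k * (A₀.card : ℝ) ^ ((k : ℝ) - ε') := by
          apply mul_le_mul_of_nonneg_right _ (by positivity)
          rw [← Real.rpow_natCast 2 k]
          exact Real.rpow_le_rpow_of_exponent_le (by norm_num) (by linarith)
  have hsmall : ∀ c' : ℝ, 0 < c' → c ≤ c' / 2 ^ k → ∀ x ∈ X',
      ((prodSet k (sh A₀ x)).card : ℝ) < c' * ((sh A₀ x).card : ℝ) ^ ((k : ℝ) - ε') := by
    intro c' hc' hcc' x hx
    rw [card_sh]
    have h1 : ((prodSet k (sh A₀ x)).card : ℝ) ≤
        ((prodSet k (A.image (fun a => a + x))).card : ℝ) := by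
      apply Nat.cast_le.2
      apply card_le_card
      apply prodSet_mono
      unfold sh
      exact image_subset_image hA₀A
    refine h1.trans_lt ((hcon x (hX'X hx)).trans_le ?_)
    calc c * N ^ ((k : ℝ) - ε) ≤ c' / 2 ^ k * (2 ^ k * (A₀.card : ℝ) ^ ((k : ℝ) - ε')) := by
          apply mul_le_mul hcc' hNA₀ (by positivity) (by positivity)
      _ = c' * (A₀.card : ℝ) ^ ((k : ℝ) - ε') := by
          field_simp
  obtain ⟨hhalf, hLL1, _⟩ := half_log hNexp hA₀c
  -- the lower bound for the weights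
  have hWlow : ∀ x ∈ X', ∀ κ : ℝ, 0 < κ → κ ≤ κ₀ →
      c₂ / 4 * (Real.log N * Real.log (Real.log N)) ≤ W0 κ (sh A₀ x) := by
    intro x hx κ hκ0 hκ
    have h1 := hwl (sh A₀ x) (by unfold sh; exact hA₀ne.image _) (h0 x hx)
      (hsmall c₂ hc₂ hcc₂ x hx) κ hκ0 hκ
    rw [card_sh] at h1
    refine le_trans ?_ h1
    have h2 := mul_le_mul_of_nonneg_left hhalf hc₂.le
    linarith
  have hLLL : 16 ≤ Real.log N * Real.log (Real.log N) := by nlinarith
  have hLLc : 16 / c₂ ≤ Real.log N * Real.log (Real.log N) := by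
    have h1 : 16 / c₂ ≤ Real.log N := by linarith
    nlinarith
  -- the popular level of a translate
  have hr : ∀ x : ℤ, ∃ κ : ℝ, x ∈ X' → κ ∈ S ∧ ∀ (T : Finset ℕ) (e : ℕ → ℕ) (β : ℕ → ℤ),
      Pop κ (sh A₀ x) T e β → W1 T e β ≤ C * (W0 κ (sh A₀ x) + 1) := by
    intro x
    by_cases hx : x ∈ X'
    · obtain ⟨κ, hκ, h⟩ := hnz (sh A₀ x) (by unfold sh; exact hA₀ne.image _) (h0 x hx)
        (hsmall c₁ hc₁ hcc₁ x hx)
      exact ⟨κ, fun _ => ⟨hκ, h⟩⟩
    · exact ⟨0, fun h => absurd h hx⟩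
  choose r hr using hr
  -- logarithms of the differences
  set Sep : ℝ := c * (Real.log N * Real.log (Real.log N)) with hSep
  have hSep0 : 0 ≤ Sep := by positivity
  have hdiff : ∀ x ∈ X', ∀ y ∈ X', x ≠ y → Real.log (x - y).natAbs ≤ Sep := by
    intro x hx y hy hxy
    have h1 := hXsep x (hX'X hx) y (hX'X hy)
    have h2 : ((x - y).natAbs : ℝ) = |(x : ℝ) - y| := by
      rw [Nat.cast_natAbs]
      push_cast
      rfl
    have h3 : (0 : ℝ) < (x - y).natAbs := by
      exact_mod_cast Int.natAbs_pos.2 (sub_ne_zero.2 hxy)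
    rw [← h2] at h1
    refine (Real.log_le_log h3 h1).trans (le_of_eq ?_)
    rw [Real.log_rpow hNpos, hSep]
    ring
  -- conclusion
  have hJ : ∀ κ ∈ S, ((X'.filter (fun x => r x = κ)).card : ℝ) ≤ 1 + 4 * C / κ := by
    intro κ hκ
    obtain ⟨hκ0, hκ1⟩ := hS κ hκ
    have hsub : X'.filter (fun x => r x = κ) ⊆ X' := filter_subset _ _
    have hJc : ((X'.filter (fun x => r x = κ)).card : ℝ) ≤ (m : ℝ) + 1 := by
      have := card_le_card hsub
      rw [hX'c] at this
      exact_mod_cast this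
    have hWJ : ∀ x ∈ X'.filter (fun x => r x = κ),
        c₂ / 4 * (Real.log N * Real.log (Real.log N)) ≤ W0 κ (sh A₀ x) := fun x hx =>
      hWlow x (hsub hx) κ hκ0 (hκ1.trans (min_le_left _ _))
    apply core_lev hA₀ne (fun x hx => h0 x (hsub hx)) hκ0 (hκ1.trans (min_le_right _ _)) hC.le
      (fun x hx T e β hP => by
        obtain ⟨hxX, hxr⟩ := mem_filter.1 hx
        have h1 := (hr x hxX).2 T e β
        rw [hxr] at h1
        exact h1 hP)
      (S := Sep) (fun x hx y hy hxy => hdiff x (hsub hx) y (hsub hy) hxy) hSep0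
    · intro x hx
      refine le_trans ?_ (hWJ x hx)
      calc 2 * (((X'.filter (fun x => r x = κ)).card : ℝ) ^ 2 * Sep)
          ≤ 2 * (((m : ℝ) + 1) ^ 2 * Sep) := by
            apply mul_le_mul_of_nonneg_left _ (by norm_num)
            apply mul_le_mul_of_nonneg_right _ hSep0
            exact pow_le_pow_left₀ (Nat.cast_nonneg _) hJc 2
        _ = (2 * ((m : ℝ) + 1) ^ 2 * c) * (Real.log N * Real.log (Real.log N)) := by
            rw [hSep]; ring
        _ ≤ c₂ / 4 * (Real.log N * Real.log (Real.log N)) := by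
            apply mul_le_mul_of_nonneg_right _ (by linarith)
            rw [le_div_iff₀ (by positivity)] at hcm
            linarith
    · intro x hx
      refine le_trans ?_ (hWJ x hx)
      rw [div_le_iff₀ hc₂] at hLLc
      linarith
  have hsum : (X'.card : ℝ) = ∑ κ ∈ S, ((X'.filter (fun x => r x = κ)).card : ℝ) := by
    exact_mod_cast card_eq_sum_card_fiberwise (f := r) (s := X') (t := S)
      (fun x hx => (hr x (mem_coe.1 hx)).1)
  have hfin : (X'.card : ℝ) ≤ m := by
    rw [hsum]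
    exact (sum_le_sum hJ).trans hm
  rw [hX'c] at hfin
  push_cast at hfin
  linarith

end Pool.Agent.Helper88.NZ
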