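import Mathlib

set_option autoImplicit false

/-!
MP_120218_co, project NZ: popular valuations of several translates of one set of integers.
-/

open Finset

namespace Pool.Agent.Helper88.NZ

theorem sum_val_le (F : Finset ℕ) (hF : ∀ q ∈ F, q.Prime) {z : ℤ} (hz : z ≠ 0) :
    ∑ q ∈ F, (padicValInt q z : ℝ) * Real.log q ≤ Real.log z.natAbs := by
  classical
  have hn : z.natAbs ≠ 0 := Int.natAbs_ne_zero.2 hz
  have h0 : ∀ q ∈ F, (padicValInt q z : ℝ) = (z.natAbs.factorization q : ℝ) := by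
    intro q hq
    rw [Nat.factorization_def _ (hF q hq)]
    rfl
  rw [sum_congr rfl fun q hq => by rw [h0 q hq]]
  rw [Real.log_nat_eq_sum_factorization z.natAbs, Finsupp.sum]
  have h1 : ∑ q ∈ F, (z.natAbs.factorization q : ℝ) * Real.log q ≤
      ∑ q ∈ F ∪ z.natAbs.factorization.support, (z.natAbs.factorization q : ℝ) * Real.log q := by
    apply sum_le_sum_of_subset_of_nonneg subset_union_left
    intro q _ _
    exact mul_nonneg (Nat.cast_nonneg _) (Real.log_natCast_nonneg q)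
  refine h1.trans (le_of_eq ?_)
  symm
  apply sum_subset subset_union_right
  intro q _ hq
  rw [Finsupp.notMem_support_iff.1 hq, Nat.cast_zero, zero_mul]

/-- the largest valuation of a difference of two elements of `J` -/
def sep (J : Finset ℤ) (q : ℕ) : ℕ := J.offDiag.sup (fun z => padicValInt q (z.1 - z.2))

theorem le_sep {J : Finset ℤ} {q : ℕ} {x y : ℤ} (hx : x ∈ J) (hy : y ∈ J) (hxy : x ≠ y) :
    padicValInt q (x - y) ≤ sep J q :=
  le_sup (f := fun z : ℤ × ℤ => padicValInt q (z.1 - z.2)) (b := (x, y))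
    (mem_offDiag.2 ⟨hx, hy, hxy⟩)

theorem sum_sep_le (J : Finset ℤ) (F : Finset ℕ) (hF : ∀ q ∈ F, q.Prime) {S : ℝ}
    (hS : ∀ x ∈ J, ∀ y ∈ J, x ≠ y → Real.log (x - y).natAbs ≤ S) (hS0 : 0 ≤ S) :
    ∑ q ∈ F, (sep J q : ℝ) * Real.log q ≤ (J.card : ℝ) ^ 2 * S := by
  classical
  have h1 : ∀ q ∈ F, (sep J q : ℝ) * Real.log q ≤
      ∑ z ∈ J.offDiag, (padicValInt q (z.1 - z.2) : ℝ) * Real.log q := by
    intro q _
    rw [← sum_mul]
    apply mul_le_mul_of_nonneg_right _ (Real.log_natCast_nonneg q)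
    have : sep J q ≤ ∑ z ∈ J.offDiag, padicValInt q (z.1 - z.2) := by
      apply Finset.sup_le
      intro z hz
      exact single_le_sum (f := fun z : ℤ × ℤ => padicValInt q (z.1 - z.2))
        (fun _ _ => Nat.zero_le _) hz
    exact_mod_cast this
  calc ∑ q ∈ F, (sep J q : ℝ) * Real.log q
      ≤ ∑ q ∈ F, ∑ z ∈ J.offDiag, (padicValInt q (z.1 - z.2) : ℝ) * Real.log q := sum_le_sum h1
    _ = ∑ z ∈ J.offDiag, ∑ q ∈ F, (padicValInt q (z.1 - z.2) : ℝ) * Real.log q := sum_comm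
    _ ≤ ∑ _z ∈ J.offDiag, S := by
        apply sum_le_sum
        intro z hz
        rw [mem_offDiag] at hz
        exact (sum_val_le F hF (sub_ne_zero.2 hz.2.2)).trans (hS _ hz.1 _ hz.2.1 hz.2.2)
    _ = (J.offDiag.card : ℝ) * S := by rw [sum_const, nsmul_eq_mul]
    _ ≤ (J.card : ℝ) ^ 2 * S := by
        apply mul_le_mul_of_nonneg_right _ hS0
        have : J.offDiag.card ≤ J.card * J.card := by
          rw [offDiag_card]
          exact Nat.sub_le _ _
        rw [sq]
        exact_mod_cast this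

/-- at most `1 / κ` of the classes `-y` modulo `q ^ l` are popular -/
theorem card_pop_le {A J : Finset ℤ} (hA : A.Nonempty) {κ : ℝ} {q l : ℕ} (hq : q.Prime)
    (hl : sep J q < l) (Y : Finset ℤ) (hY : Y ⊆ J)
    (hpop : ∀ y ∈ Y, κ * A.card ≤ ((A.filter (fun a => (q : ℤ) ^ l ∣ a + y)).card : ℝ)) :
    κ * Y.card ≤ 1 := by
  classical
  have hAp : (0 : ℝ) < A.card := by exact_mod_cast card_pos.2 hA
  have hdis : (Y : Set ℤ).PairwiseDisjoint (fun y => A.filter (fun a => (q : ℤ) ^ l ∣ a + y)) := by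
    intro x hx y hy hxy
    rw [Function.onFun, disjoint_left]
    intro a ha ha'
    rw [mem_filter] at ha ha'
    have h1 : (q : ℤ) ^ l ∣ x - y := by
      have := dvd_sub ha.2 ha'.2
      rwa [show a + x - (a + y) = x - y by ring] at this
    have := Fact.mk hq
    have h2 := (padicValInt_dvd_iff (p := q) l (x - y)).1 h1
    rcases h2 with h2 | h2
    · exact hxy (sub_eq_zero.1 h2)
    · have h3 := le_sep (q := q) (hY (mem_coe.1 hx)) (hY (mem_coe.1 hy)) hxy
      omega
  have h1 : ∑ y ∈ Y, (A.filter (fun a => (q : ℤ) ^ l ∣ a + y)).card ≤ A.card := by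
    rw [← card_biUnion (fun x hx y hy hxy => hdis hx hy hxy)]
    apply card_le_card
    intro a ha
    obtain ⟨y, _, hy⟩ := mem_biUnion.1 ha
    exact (mem_filter.1 hy).1
  have h2 : ∑ _y ∈ Y, κ * (A.card : ℝ) ≤ A.card := by
    refine (sum_le_sum hpop).trans ?_
    exact_mod_cast h1
  rw [sum_const, nsmul_eq_mul] at h2
  have h3 : (κ * Y.card) * A.card ≤ 1 * A.card := by linarith
  exact le_of_mul_le_mul_right h3 hAp

theorem transl_core {A J : Finset ℤ} (hA : A.Nonempty) {κ : ℝ} (hκ0 : 0 < κ)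
    (F : Finset ℕ) (hF : ∀ q ∈ F, q.Prime) (lam : ℤ → ℕ → ℕ)
    (hlam : ∀ x ∈ J, ∀ q ∈ F, ∀ l ≤ lam x q,
      κ * A.card ≤ ((A.filter (fun a => (q : ℤ) ^ l ∣ a + x)).card : ℝ))
    {C : ℝ} (hC0 : 0 ≤ C)
    (hNZ : ∀ x ∈ J, ∀ mu : ℕ → ℕ, (∀ q ∈ F, mu q ≠ 0 → ∃ b : ℤ, b ≠ 0 ∧
      κ * A.card ≤ ((A.filter (fun a => (q : ℤ) ^ (padicValInt q b + mu q) ∣ (a + x) - b)).card : ℝ)) →
      ∑ q ∈ F, (mu q : ℝ) * Real.log q ≤ C * ∑ q ∈ F, (lam x q : ℝ) * Real.log q)
    {S : ℝ} (hS : ∀ x ∈ J, ∀ y ∈ J, x ≠ y → Real.log (x - y).natAbs ≤ S) (hS0 : 0 ≤ S)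
    (hW : ∀ x ∈ J, 2 * ((J.card : ℝ) ^ 2 * S) ≤ ∑ q ∈ F, (lam x q : ℝ) * Real.log q)
    (hW0 : ∀ x ∈ J, 0 < ∑ q ∈ F, (lam x q : ℝ) * Real.log q) :
    (J.card : ℝ) ≤ 1 + 2 * C / κ := by
  classical
  rcases J.eq_empty_or_nonempty with hJ | hJ
  · rw [hJ, card_empty, Nat.cast_zero]
    positivity
  obtain ⟨x, hx, hmin⟩ := exists_min_image J (fun x => ∑ q ∈ F, (lam x q : ℝ) * Real.log q) hJ
  set W : ℤ → ℝ := fun x => ∑ q ∈ F, (lam x q : ℝ) * Real.log q with hWdef
  set mu : ℕ → ℕ := fun q => (J.erase x).sup (fun y => lam y q - sep J q) with hmu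
  have hq0 : ∀ q : ℕ, 0 ≤ Real.log q := fun q => Real.log_natCast_nonneg q
  have hmuW : ∑ q ∈ F, (mu q : ℝ) * Real.log q ≤ C * W x := by
    apply hNZ x hx mu
    intro q hq hne
    have hEne : (J.erase x).Nonempty := by
      rw [nonempty_iff_ne_empty]
      intro h0
      apply hne
      rw [hmu]
      simp only
      rw [h0, sup_empty]
      rfl
    obtain ⟨y, hy, hye⟩ := exists_mem_eq_sup (J.erase x) hEne (fun y => lam y q - sep J q)
    have hyJ := mem_of_mem_erase hy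
    have hyx := ne_of_mem_erase hy
    have hmuq : mu q = lam y q - sep J q := hye
    have hlt : sep J q < lam y q := by omega
    have hle : padicValInt q (x - y) + mu q ≤ lam y q := by
      have := le_sep (q := q) hx hyJ (Ne.symm hyx)
      omega
    refine ⟨x - y, sub_ne_zero.2 (Ne.symm hyx), (hlam y hyJ q hq (lam y q) le_rfl).trans ?_⟩
    apply Nat.cast_le.2
    apply card_le_card
    intro a ha
    rw [mem_filter] at ha ⊢
    refine ⟨ha.1, (pow_dvd_pow _ hle).trans ?_⟩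
    rw [show a + x - (x - y) = a + y by ring]
    exact ha.2
  have hone : ∀ q ∈ F, κ * ∑ y ∈ J.erase x, ((lam y q - sep J q : ℕ) : ℝ) ≤ mu q := by
    intro q hq
    have h1 : ∀ y ∈ J.erase x, ((lam y q - sep J q : ℕ) : ℝ) =
        ∑ l ∈ Ioc (sep J q) (sep J q + mu q), if l ≤ lam y q then (1 : ℝ) else 0 := by
      intro y hy
      rw [← sum_filter, sum_const, nsmul_one]
      congr 1
      have h2 : lam y q - sep J q ≤ mu q :=
        le_sup (f := fun y => lam y q - sep J q) hy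
      have h3 : (Ioc (sep J q) (sep J q + mu q)).filter (fun l => l ≤ lam y q) =
          Ioc (sep J q) (lam y q) := by
        ext l
        simp only [mem_filter, mem_Ioc]
        omega
      rw [h3, Nat.card_Ioc]
    rw [sum_congr rfl h1, sum_comm, mul_sum]
    have h4 : ∀ l ∈ Ioc (sep J q) (sep J q + mu q),
        κ * ∑ y ∈ J.erase x, (if l ≤ lam y q then (1 : ℝ) else 0) ≤ 1 := by
      intro l hl
      rw [← sum_filter, sum_const, nsmul_one]
      apply card_pop_le hA (hF q hq) (mem_Ioc.1 hl).1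
      · exact (filter_subset _ _).trans (erase_subset _ _)
      · intro y hy
        rw [mem_filter] at hy
        exact hlam y (mem_of_mem_erase hy.1) q hq l hy.2
    refine (sum_le_sum h4).trans ?_
    rw [sum_const, Nat.card_Ioc, nsmul_one]
    apply le_of_eq
    congr 1
    omega
  have hall : κ * ∑ y ∈ J.erase x, ∑ q ∈ F, ((lam y q - sep J q : ℕ) : ℝ) * Real.log q ≤ C * W x := by
    rw [sum_comm, mul_sum]
    refine le_trans (sum_le_sum fun q hq => ?_) hmuW
    rw [← sum_mul, ← mul_assoc]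
    exact mul_le_mul_of_nonneg_right (hone q hq) (hq0 q)
  have hsep := sum_sep_le J F hF hS hS0
  have hlow : ∀ y ∈ J.erase x, W x / 2 ≤ ∑ q ∈ F, ((lam y q - sep J q : ℕ) : ℝ) * Real.log q := by
    intro y hy
    have hyJ := mem_of_mem_erase hy
    have h1 : W y - ∑ q ∈ F, (sep J q : ℝ) * Real.log q ≤
        ∑ q ∈ F, ((lam y q - sep J q : ℕ) : ℝ) * Real.log q := by
      rw [hWdef]
      simp only
      rw [← sum_sub_distrib]
      apply sum_le_sum
      intro q _
      rw [← sub_mul]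
      apply mul_le_mul_of_nonneg_right _ (hq0 q)
      have h2 : lam y q ≤ (lam y q - sep J q) + sep J q := by omega
      have h3 : (lam y q : ℝ) ≤ ((lam y q - sep J q : ℕ) : ℝ) + sep J q := by exact_mod_cast h2
      linarith
    have h2 := hmin y hyJ
    have h3 := hW x hx
    have h4 : W x ≤ W y := h2
    have h5 : 2 * ((J.card : ℝ) ^ 2 * S) ≤ W x := h3
    linarith
  have h6 : κ * (((J.card : ℝ) - 1) * (W x / 2)) ≤ C * W x := by
    refine le_trans ?_ hall
    apply mul_le_mul_of_nonneg_left _ hκ0.le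
    have h7 := sum_le_sum hlow
    rw [sum_const, nsmul_eq_mul, card_erase_of_mem hx] at h7
    refine le_trans (le_of_eq ?_) h7
    congr 1
    have h8 : 1 ≤ J.card := card_pos.2 hJ
    rw [Nat.cast_sub h8, Nat.cast_one]
  have hWx : 0 < W x := hW0 x hx
  have h7 : (κ * ((J.card : ℝ) - 1)) * (W x / 2) ≤ (2 * C) * (W x / 2) := by
    refine (le_of_eq ?_).trans (h6.trans (le_of_eq ?_)) <;> ring
  have h8 := le_of_mul_le_mul_right h7 (by positivity)
  have h9 : (J.card : ℝ) - 1 ≤ 2 * C / κ := by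
    rw [le_div_iff₀ hκ0]
    linarith
  linarith

end Pool.Agent.Helper88.NZ
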